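import Mathlib

/-!
# A second order test at a local maximum of a product of moduli and of `1 - |f|²`
-/

set_option autoImplicit false

open Filter Topology Metric Complex
open scoped ComplexConjugate

namespace Pool.Agent.E8helper80.MB

/-- the (hyperbolic) density `|f'| / (1 - |f|²)` -/
noncomputable def lam (f : ℂ → ℂ) (z : ℂ) : ℝ := ‖deriv f z‖ / (1 - ‖f z‖ ^ 2)

/-- the Moebius transform of the value -/
noncomputable def mob (a w : ℂ) : ℂ := (w - a) / (1 - conj a * w)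

lemma den_ne {a w : ℂ} (ha : ‖a‖ < 1) (hw : ‖w‖ < 1) : 1 - conj a * w ≠ 0 := by
  intro h
  have h1 : conj a * w = 1 := by
    rw [sub_eq_zero] at h; exact h.symm
  have h2 : ‖a‖ * ‖w‖ = 1 := by
    rw [← Complex.norm_conj a, ← norm_mul, h1, norm_one]
  nlinarith [norm_nonneg a, norm_nonneg w]

lemma mob_id {a w : ℂ} (ha : ‖a‖ < 1) (hw : ‖w‖ < 1) :
    1 - ‖w‖ ^ 2 = (1 - ‖mob a w‖ ^ 2) * ‖(1 - conj a * w) ^ 2‖ / (1 - ‖a‖ ^ 2) := by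
  have h1 := den_ne ha hw
  have h2 : 0 < 1 - ‖a‖ ^ 2 := by nlinarith [norm_nonneg a]
  have h3 : 0 < ‖1 - conj a * w‖ := norm_pos_iff.2 h1
  rw [eq_div_iff h2.ne', mob, norm_div, norm_pow, div_pow]
  have h4 : ‖1 - conj a * w‖ ^ 2 - ‖w - a‖ ^ 2 = (1 - ‖a‖ ^ 2) * (1 - ‖w‖ ^ 2) := by
    simp only [← Complex.normSq_eq_norm_sq, Complex.normSq_apply]
    simp
    ring
  have h5 : (1 - ‖w - a‖ ^ 2 / ‖1 - conj a * w‖ ^ 2) * ‖1 - conj a * w‖ ^ 2 =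
      ‖1 - conj a * w‖ ^ 2 - ‖w - a‖ ^ 2 := by
    rw [sub_mul, one_mul, div_mul_cancel₀ _ (pow_ne_zero 2 h3.ne')]
  rw [h5]
  linarith

lemma mob_self (a : ℂ) : mob a a = 0 := by simp [mob]

lemma hasDerivAt_mob {f : ℂ → ℂ} {z₀ : ℂ} (hf : DifferentiableAt ℂ f z₀) (h : ‖f z₀‖ < 1) :
    HasDerivAt (fun z => mob (f z₀) (f z)) (deriv f z₀ / (1 - ‖f z₀‖ ^ 2 : ℝ)) z₀ := by
  have h1 := den_ne h h
  have h2 : HasDerivAt (fun z => f z - f z₀) (deriv f z₀) z₀ := hf.hasDerivAt.sub_const _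
  have h3 : HasDerivAt (fun z => 1 - conj (f z₀) * f z) (-(conj (f z₀) * deriv f z₀)) z₀ := by
    have := (hf.hasDerivAt.const_mul (conj (f z₀))).const_sub 1
    exact this
  have h4 := h2.div h3 h1
  have h5 : (1 : ℂ) - conj (f z₀) * f z₀ = ((1 - ‖f z₀‖ ^ 2 : ℝ) : ℂ) := by
    rw [mul_comm, Complex.mul_conj, Complex.normSq_eq_norm_sq]
    push_cast
    ring
  refine h4.congr_deriv ?_
  rw [sub_self, zero_mul, sub_zero, h5]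
  have h6 : ((1 - ‖f z₀‖ ^ 2 : ℝ) : ℂ) ≠ 0 := by
    rw [← h5]; exact h1
  field_simp

lemma tendsto_quot {g : ℂ → ℂ} {z₀ d : ℂ} (hg : HasDerivAt g d z₀) (h0 : g z₀ = 0) :
    Tendsto (fun z => ‖g z‖ ^ 2 / ‖z - z₀‖ ^ 2) (𝓝[≠] z₀) (𝓝 (‖d‖ ^ 2)) := by
  have h1 := hg.tendsto_slope
  have h2 := (h1.norm).pow 2
  refine h2.congr' ?_
  filter_upwards [self_mem_nhdsWithin] with z hz
  rw [slope_def_field, h0, sub_zero, norm_div, div_pow]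

lemma tendsto_sq {g : ℂ → ℂ} {z₀ d : ℂ} (hg : HasDerivAt g d z₀) (h0 : g z₀ = 0) :
    Tendsto (fun z => ‖g z‖ ^ 2) (𝓝[≠] z₀) (𝓝 0) := by
  have h1 : Tendsto (fun z => ‖g z‖ ^ 2) (𝓝 z₀) (𝓝 (‖g z₀‖ ^ 2)) :=
    (hg.continuousAt.norm).pow 2
  rw [h0, norm_zero] at h1
  simpa using h1.mono_left nhdsWithin_le_nhds

lemma tendsto_exp_quot (ε : ℝ) (z₀ : ℂ) :
    Tendsto (fun z : ℂ => (Real.exp (-(ε * ‖z - z₀‖ ^ 2)) - 1) / ‖z - z₀‖ ^ 2) (𝓝[≠] z₀)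
      (𝓝 (-ε)) := by
  have h1 : HasDerivAt (fun s : ℝ => Real.exp (-(ε * s))) (-ε) 0 := by
    have h := ((hasDerivAt_id (0:ℝ)).const_mul ε).neg.exp
    simpa using h
  have h2 := h1.tendsto_slope
  have h3 : Tendsto (fun z : ℂ => ‖z - z₀‖ ^ 2) (𝓝[≠] z₀) (𝓝[≠] 0) := by
    rw [tendsto_nhdsWithin_iff]
    constructor
    · have : Tendsto (fun z : ℂ => ‖z - z₀‖ ^ 2) (𝓝 z₀) (𝓝 (‖z₀ - z₀‖ ^ 2)) := by
        have hc : Continuous fun z : ℂ => ‖z - z₀‖ ^ 2 := by fun_prop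
        exact hc.tendsto z₀
      rw [sub_self, norm_zero] at this
      simpa using this.mono_left nhdsWithin_le_nhds
    · filter_upwards [self_mem_nhdsWithin] with z hz
      have : z - z₀ ≠ 0 := sub_ne_zero.2 hz
      have h5 : 0 < ‖z - z₀‖ := norm_pos_iff.2 this
      exact (pow_pos h5 2).ne'
  refine (h2.comp h3).congr fun z => ?_
  simp [slope_def_field]

/-- **Second order test.** -/
theorem local_max {f₁ f₂ f₃ f₄ G : ℂ → ℂ} {z₀ : ℂ} {ε : ℝ} {W : Set ℂ} (hW : IsOpen W)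
    (hz : z₀ ∈ W) (h1 : DifferentiableOn ℂ f₁ W) (h2 : DifferentiableOn ℂ f₂ W)
    (h3 : DifferentiableOn ℂ f₃ W) (h4 : DifferentiableOn ℂ f₄ W) (hG : DifferentiableOn ℂ G W)
    (b1 : ∀ z ∈ W, ‖f₁ z‖ < 1) (b2 : ∀ z ∈ W, ‖f₂ z‖ < 1) (b3 : ∀ z ∈ W, ‖f₃ z‖ < 1)
    (b4 : ∀ z ∈ W, ‖f₄ z‖ < 1) (hG0 : G z₀ ≠ 0)
    (hmax : IsLocalMax (fun z => ‖G z‖ * (1 - ‖f₁ z‖ ^ 2) * (1 - ‖f₂ z‖ ^ 2) /
      ((1 - ‖f₃ z‖ ^ 2) * (1 - ‖f₄ z‖ ^ 2)) * Real.exp (ε * ‖z‖ ^ 2)) z₀) :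
    ε + lam f₃ z₀ ^ 2 + lam f₄ z₀ ^ 2 ≤ lam f₁ z₀ ^ 2 + lam f₂ z₀ ^ 2 := by
  by_contra hcon
  push Not at hcon
  have hWz : W ∈ 𝓝 z₀ := hW.mem_nhds hz
  -- the transformed functions
  have D1 := hasDerivAt_mob (h1.differentiableAt hWz) (b1 z₀ hz)
  have D2 := hasDerivAt_mob (h2.differentiableAt hWz) (b2 z₀ hz)
  have D3 := hasDerivAt_mob (h3.differentiableAt hWz) (b3 z₀ hz)
  have D4 := hasDerivAt_mob (h4.differentiableAt hWz) (b4 z₀ hz)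
  have lamsq : ∀ {f : ℂ → ℂ}, ‖f z₀‖ < 1 →
      ‖deriv f z₀ / ((1 - ‖f z₀‖ ^ 2 : ℝ) : ℂ)‖ ^ 2 = lam f z₀ ^ 2 := by
    intro f hf
    have h : 0 < 1 - ‖f z₀‖ ^ 2 := by nlinarith [norm_nonneg (f z₀)]
    rw [lam, norm_div, Complex.norm_real, Real.norm_eq_abs, abs_of_pos h]
  -- the quotient tends to a negative number
  have key : Tendsto (fun z => ((1 - ‖mob (f₃ z₀) (f₃ z)‖ ^ 2) * (1 - ‖mob (f₄ z₀) (f₄ z)‖ ^ 2) *
      Real.exp (-(ε * ‖z - z₀‖ ^ 2)) - (1 - ‖mob (f₁ z₀) (f₁ z)‖ ^ 2) *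
      (1 - ‖mob (f₂ z₀) (f₂ z)‖ ^ 2)) / ‖z - z₀‖ ^ 2) (𝓝[≠] z₀)
      (𝓝 (-ε - lam f₃ z₀ ^ 2 - lam f₄ z₀ ^ 2 + lam f₁ z₀ ^ 2 + lam f₂ z₀ ^ 2)) := by
    have q1 := tendsto_quot D1 (mob_self _)
    have q2 := tendsto_quot D2 (mob_self _)
    have q3 := tendsto_quot D3 (mob_self _)
    have q4 := tendsto_quot D4 (mob_self _)
    rw [lamsq (b1 z₀ hz)] at q1
    rw [lamsq (b2 z₀ hz)] at q2
    rw [lamsq (b3 z₀ hz)] at q3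
    rw [lamsq (b4 z₀ hz)] at q4
    have s2 := tendsto_sq D2 (mob_self _)
    have s3 := tendsto_sq D3 (mob_self _)
    have s4 := tendsto_sq D4 (mob_self _)
    have qe := tendsto_exp_quot ε z₀
    have t := ((((s3.const_sub 1).mul (s4.const_sub 1)).mul qe).add
      (((q1.add (q2.sub (q1.mul s2))).sub (q3.add (q4.sub (q3.mul s4))))))
    have e : (1 - 0) * (1 - 0) * -ε + (lam f₁ z₀ ^ 2 + (lam f₂ z₀ ^ 2 - lam f₁ z₀ ^ 2 * 0) -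
        (lam f₃ z₀ ^ 2 + (lam f₄ z₀ ^ 2 - lam f₃ z₀ ^ 2 * 0))) =
        -ε - lam f₃ z₀ ^ 2 - lam f₄ z₀ ^ 2 + lam f₁ z₀ ^ 2 + lam f₂ z₀ ^ 2 := by ring
    rw [e] at t
    refine t.congr fun z => ?_
    ring
  have hneg : -ε - lam f₃ z₀ ^ 2 - lam f₄ z₀ ^ 2 + lam f₁ z₀ ^ 2 + lam f₂ z₀ ^ 2 < 0 := by
    linarith
  have hev1 := key.eventually (gt_mem_nhds hneg)
  -- the holomorphic function
  set H : ℂ → ℂ := fun z => G z * (1 - conj (f₁ z₀) * f₁ z) ^ 2 * (1 - conj (f₂ z₀) * f₂ z) ^ 2 /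
    ((1 - conj (f₃ z₀) * f₃ z) ^ 2 * (1 - conj (f₄ z₀) * f₄ z) ^ 2) *
    Complex.exp (2 * (ε * (conj z₀ * (z - z₀)))) with hH
  have n3 : ∀ z ∈ W, (1 - conj (f₃ z₀) * f₃ z) ≠ 0 := fun z hz' => den_ne (b3 z₀ hz) (b3 z hz')
  have n4 : ∀ z ∈ W, (1 - conj (f₄ z₀) * f₄ z) ≠ 0 := fun z hz' => den_ne (b4 z₀ hz) (b4 z hz')
  have hHd : DifferentiableOn ℂ H W := by
    have e1 : DifferentiableOn ℂ (fun z => 1 - conj (f₁ z₀) * f₁ z) W :=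
      (h1.const_mul _).const_sub 1
    have e2 : DifferentiableOn ℂ (fun z => 1 - conj (f₂ z₀) * f₂ z) W :=
      (h2.const_mul _).const_sub 1
    have e3 : DifferentiableOn ℂ (fun z => 1 - conj (f₃ z₀) * f₃ z) W :=
      (h3.const_mul _).const_sub 1
    have e4 : DifferentiableOn ℂ (fun z => 1 - conj (f₄ z₀) * f₄ z) W :=
      (h4.const_mul _).const_sub 1
    refine (((hG.mul (e1.pow 2)).mul (e2.pow 2)).div ((e3.pow 2).mul (e4.pow 2)) ?_).mul ?_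
    · intro z hz'
      exact mul_ne_zero (pow_ne_zero 2 (n3 z hz')) (pow_ne_zero 2 (n4 z hz'))
    · apply Differentiable.differentiableOn
      fun_prop
  set K : ℝ := (1 - ‖f₃ z₀‖ ^ 2) * (1 - ‖f₄ z₀‖ ^ 2) / ((1 - ‖f₁ z₀‖ ^ 2) * (1 - ‖f₂ z₀‖ ^ 2)) *
    Real.exp (ε * ‖z₀‖ ^ 2) with hK
  have p : ∀ {f : ℂ → ℂ} {z : ℂ}, ‖f z‖ < 1 → 0 < 1 - ‖f z‖ ^ 2 := by
    intro f z hf
    nlinarith [norm_nonneg (f z)]
  have hKpos : 0 < K := by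
    have := p (b1 z₀ hz)
    have := p (b2 z₀ hz)
    have := p (b3 z₀ hz)
    have := p (b4 z₀ hz)
    positivity
  have pm : ∀ {f : ℂ → ℂ} {z : ℂ}, ‖f z₀‖ < 1 → ‖f z‖ < 1 → 0 < 1 - ‖mob (f z₀) (f z)‖ ^ 2 := by
    intro f z hf0 hf
    have e := mob_id hf0 hf
    have e1 : 0 < 1 - ‖f z‖ ^ 2 := p hf
    have e2 : 0 < 1 - ‖f z₀‖ ^ 2 := p hf0
    rw [e] at e1
    have e3 : 0 < ‖(1 - conj (f z₀) * f z) ^ 2‖ :=
      norm_pos_iff.2 (pow_ne_zero 2 (den_ne hf0 hf))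
    by_contra hc
    push Not at hc
    have : (1 - ‖mob (f z₀) (f z)‖ ^ 2) * ‖(1 - conj (f z₀) * f z) ^ 2‖ / (1 - ‖f z₀‖ ^ 2) ≤ 0 := by
      apply div_nonpos_of_nonpos_of_nonneg _ e2.le
      exact mul_nonpos_of_nonpos_of_nonneg hc e3.le
    linarith
  have hexp : ∀ z : ℂ, Real.exp (ε * ‖z‖ ^ 2) = Real.exp (ε * ‖z₀‖ ^ 2) *
      ‖Complex.exp (2 * (ε * (conj z₀ * (z - z₀))))‖ * Real.exp (ε * ‖z - z₀‖ ^ 2) := by
    intro z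
    rw [Complex.norm_exp, ← Real.exp_add, ← Real.exp_add]
    congr 1
    simp only [← Complex.normSq_eq_norm_sq, Complex.normSq_apply]
    simp
    ring
  -- the product in terms of `H`
  have hPhi : ∀ z ∈ W, ‖G z‖ * (1 - ‖f₁ z‖ ^ 2) * (1 - ‖f₂ z‖ ^ 2) /
      ((1 - ‖f₃ z‖ ^ 2) * (1 - ‖f₄ z‖ ^ 2)) * Real.exp (ε * ‖z‖ ^ 2) =
      K * ‖H z‖ * ((1 - ‖mob (f₁ z₀) (f₁ z)‖ ^ 2) * (1 - ‖mob (f₂ z₀) (f₂ z)‖ ^ 2) /
      ((1 - ‖mob (f₃ z₀) (f₃ z)‖ ^ 2) * (1 - ‖mob (f₄ z₀) (f₄ z)‖ ^ 2))) *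
      Real.exp (ε * ‖z - z₀‖ ^ 2) := by
    intro z hz'
    rw [hexp z]
    have m1 := mob_id (b1 z₀ hz) (b1 z hz')
    have m2 := mob_id (b2 z₀ hz) (b2 z hz')
    have m3 := mob_id (b3 z₀ hz) (b3 z hz')
    have m4 := mob_id (b4 z₀ hz) (b4 z hz')
    have e1 : ‖H z‖ = ‖G z‖ * ‖(1 - conj (f₁ z₀) * f₁ z) ^ 2‖ * ‖(1 - conj (f₂ z₀) * f₂ z) ^ 2‖ /
        (‖(1 - conj (f₃ z₀) * f₃ z) ^ 2‖ * ‖(1 - conj (f₄ z₀) * f₄ z) ^ 2‖) *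
        ‖Complex.exp (2 * (ε * (conj z₀ * (z - z₀))))‖ := by
      rw [hH]
      simp only [norm_mul, norm_div]
    rw [e1, hK]
    have P1 := p (b1 z₀ hz)
    have P2 := p (b2 z₀ hz)
    have P3 := p (b3 z₀ hz)
    have P4 := p (b4 z₀ hz)
    have Q3 := pm (b3 z₀ hz) (b3 z hz')
    have Q4 := pm (b4 z₀ hz) (b4 z hz')
    have R3 : 0 < ‖(1 - conj (f₃ z₀) * f₃ z) ^ 2‖ := norm_pos_iff.2 (pow_ne_zero 2 (n3 z hz'))
    have R4 : 0 < ‖(1 - conj (f₄ z₀) * f₄ z) ^ 2‖ := norm_pos_iff.2 (pow_ne_zero 2 (n4 z hz'))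
    rw [m1, m2, m3, m4]
    field_simp
  have hH0 : ‖H z₀‖ ≠ 0 := by
    rw [hH]
    simp only [norm_ne_zero_iff]
    refine mul_ne_zero (div_ne_zero (mul_ne_zero (mul_ne_zero hG0 ?_) ?_) (mul_ne_zero ?_ ?_))
      (Complex.exp_ne_zero _)
    · exact pow_ne_zero 2 (den_ne (b1 z₀ hz) (b1 z₀ hz))
    · exact pow_ne_zero 2 (den_ne (b2 z₀ hz) (b2 z₀ hz))
    · exact pow_ne_zero 2 (n3 z₀ hz)
    · exact pow_ne_zero 2 (n4 z₀ hz)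
  have hPhi0 := hPhi z₀ hz
  simp only [mob_self, norm_zero, sub_self] at hPhi0
  -- the modulus of `H` is smaller than at `z₀`
  have hlt : ∀ᶠ z in 𝓝[≠] z₀, ‖H z‖ < ‖H z₀‖ := by
    have hm := hmax.filter_mono (nhdsWithin_le_nhds (s := {z₀}ᶜ))
    have hWn : ∀ᶠ z in 𝓝[≠] z₀, z ∈ W := nhdsWithin_le_nhds hWz
    filter_upwards [hm, hWn, hev1, self_mem_nhdsWithin] with z hzm hzW hze hzne
    rw [hPhi z hzW, hPhi0] at hzm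
    have hs : 0 < ‖z - z₀‖ ^ 2 := by
      have : 0 < ‖z - z₀‖ := norm_pos_iff.2 (sub_ne_zero.2 hzne)
      positivity
    have hze2 := (div_neg_iff.1 hze)
    have hze3 : (1 - ‖mob (f₃ z₀) (f₃ z)‖ ^ 2) * (1 - ‖mob (f₄ z₀) (f₄ z)‖ ^ 2) *
      Real.exp (-(ε * ‖z - z₀‖ ^ 2)) < (1 - ‖mob (f₁ z₀) (f₁ z)‖ ^ 2) *
      (1 - ‖mob (f₂ z₀) (f₂ z)‖ ^ 2) := by
      rcases hze2 with h | h
      · exact absurd h.2 (not_lt.2 hs.le)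
      · linarith [h.1]
    have Q1 := pm (b1 z₀ hz) (b1 z hzW)
    have Q2 := pm (b2 z₀ hz) (b2 z hzW)
    have Q3 := pm (b3 z₀ hz) (b3 z hzW)
    have Q4 := pm (b4 z₀ hz) (b4 z hzW)
    set X := (1 - ‖mob (f₁ z₀) (f₁ z)‖ ^ 2) * (1 - ‖mob (f₂ z₀) (f₂ z)‖ ^ 2) with hX
    set Y := (1 - ‖mob (f₃ z₀) (f₃ z)‖ ^ 2) * (1 - ‖mob (f₄ z₀) (f₄ z)‖ ^ 2) with hY
    have hYpos : 0 < Y := mul_pos Q3 Q4
    have hXpos : 0 < X := mul_pos Q1 Q2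
    have hgt : 1 < X / Y * Real.exp (ε * ‖z - z₀‖ ^ 2) := by
      rw [Real.exp_neg] at hze3
      have he : 0 < Real.exp (ε * ‖z - z₀‖ ^ 2) := Real.exp_pos _
      rw [← div_eq_mul_inv, div_lt_iff₀ he] at hze3
      rw [div_mul_eq_mul_div, lt_div_iff₀ hYpos]
      linarith
    have hz0' : K * ‖H z₀‖ * ((1 - 0 ^ 2) * (1 - 0 ^ 2) / ((1 - 0 ^ 2) * (1 - 0 ^ 2))) *
        Real.exp (ε * 0 ^ 2) = K * ‖H z₀‖ := by simp
    rw [hz0'] at hzm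
    by_contra hc
    push Not at hc
    have hH0' : 0 < ‖H z₀‖ := lt_of_le_of_ne (norm_nonneg _) hH0.symm
    have e1 : K * ‖H z₀‖ < K * ‖H z‖ * (X / Y) * Real.exp (ε * ‖z - z₀‖ ^ 2) := by
      calc K * ‖H z₀‖ ≤ K * ‖H z‖ := by gcongr
        _ = K * ‖H z‖ * 1 := by ring
        _ < K * ‖H z‖ * (X / Y * Real.exp (ε * ‖z - z₀‖ ^ 2)) := by
            apply mul_lt_mul_of_pos_left hgt
            exact mul_pos hKpos (lt_of_lt_of_le hH0' hc)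
        _ = _ := by ring
    linarith
  -- contradiction with the maximum principle
  have hloc : IsLocalMax (norm ∘ H) z₀ := by
    rw [IsLocalMax, IsMaxFilter]
    rw [eventually_nhdsWithin_iff] at hlt
    filter_upwards [hlt] with z hz'
    by_cases h : z = z₀
    · rw [h]
    · exact (hz' h).le
  have hda : ∀ᶠ z in 𝓝 z₀, DifferentiableAt ℂ H z := by
    filter_upwards [hW.mem_nhds hz] with z hz'
    exact hHd.differentiableAt (hW.mem_nhds hz')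
  have hconst := Complex.norm_eventually_eq_of_isLocalMax hda hloc
  have h5 : ∀ᶠ z in 𝓝[≠] z₀, False := by
    have hc' := hconst.filter_mono (nhdsWithin_le_nhds (s := {z₀}ᶜ))
    filter_upwards [hlt, hc'] with z e1 e2
    linarith
  have : (𝓝[≠] z₀).NeBot := inferInstance
  rw [Filter.eventually_false_iff_eq_bot] at h5
  exact this.ne h5

end Pool.Agent.E8helper80.MB
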