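import Mathlib
import Pool.Agent.E8helper80.MB.LocMax

/-!
# Schwarz-Pick and the comparison principle
-/

set_option autoImplicit false

open Filter Topology Metric Complex Set
open scoped ComplexConjugate

namespace Pool.Agent.E8helper80.MB

/-- holomorphic self-map of the open unit disc -/
structure SelfMap (f : ℂ → ℂ) : Prop where
  diff : DifferentiableOn ℂ f (ball 0 1)
  maps : ∀ z ∈ ball (0:ℂ) 1, ‖f z‖ < 1

lemma one_sub_pos {x : ℝ} (h0 : 0 ≤ x) (h : x < 1) : 0 < 1 - x ^ 2 := by nlinarith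

lemma mob_lt {a w : ℂ} (ha : ‖a‖ < 1) (hw : ‖w‖ < 1) : ‖mob a w‖ < 1 := by
  have e := mob_id ha hw
  have e1 : 0 < 1 - ‖w‖ ^ 2 := one_sub_pos (norm_nonneg _) hw
  have e2 : 0 < 1 - ‖a‖ ^ 2 := one_sub_pos (norm_nonneg _) ha
  rw [e] at e1
  have e3 : 0 < ‖(1 - conj a * w) ^ 2‖ := norm_pos_iff.2 (pow_ne_zero 2 (den_ne ha hw))
  by_contra hc
  push Not at hc
  have h1 : (1 - ‖mob a w‖ ^ 2) ≤ 0 := by nlinarith
  have : (1 - ‖mob a w‖ ^ 2) * ‖(1 - conj a * w) ^ 2‖ / (1 - ‖a‖ ^ 2) ≤ 0 := by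
    apply div_nonpos_of_nonpos_of_nonneg _ e2.le
    exact mul_nonpos_of_nonpos_of_nonneg h1 e3.le
  linarith

lemma mob_diff {a : ℂ} (ha : ‖a‖ < 1) : DifferentiableOn ℂ (mob a) (ball 0 1) := by
  unfold mob
  refine (differentiableOn_id.sub_const _).div ((differentiableOn_id.const_mul _).const_sub 1) ?_
  intro w hw
  exact den_ne ha (by simpa using hw)

lemma mob_selfMap {a : ℂ} (ha : ‖a‖ < 1) : SelfMap (mob a) :=
  ⟨mob_diff ha, fun w hw => mob_lt ha (by simpa using hw)⟩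

lemma SelfMap.comp {f g : ℂ → ℂ} (hf : SelfMap f) (hg : SelfMap g) : SelfMap (fun z => f (g z)) :=
  ⟨hf.diff.comp hg.diff (fun z hz => by simpa using hg.maps z hz),
    fun z hz => hf.maps _ (by simpa using hg.maps z hz)⟩

lemma SelfMap.differentiableAt {f : ℂ → ℂ} (hf : SelfMap f) {z : ℂ} (hz : z ∈ ball (0:ℂ) 1) :
    DifferentiableAt ℂ f z := hf.diff.differentiableAt (isOpen_ball.mem_nhds hz)

lemma SelfMap.pos {f : ℂ → ℂ} (hf : SelfMap f) {z : ℂ} (hz : z ∈ ball (0:ℂ) 1) :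
    0 < 1 - ‖f z‖ ^ 2 := one_sub_pos (norm_nonneg _) (hf.maps z hz)

/-- Schwarz-Pick -/
lemma SelfMap.schwarz_pick {f : ℂ → ℂ} (hf : SelfMap f) {z : ℂ} (hz : z ∈ ball (0:ℂ) 1) :
    ‖deriv f z‖ * (1 - ‖z‖ ^ 2) ≤ 1 - ‖f z‖ ^ 2 := by
  have hz1 : ‖z‖ < 1 := by simpa using hz
  have hzm : ‖-z‖ < 1 := by rwa [norm_neg]
  have hφ : SelfMap (mob (-z)) := mob_selfMap hzm
  have hφ0 : mob (-z) 0 = z := by simp [mob]
  have hφd : HasDerivAt (mob (-z)) ((1 - ‖z‖ ^ 2 : ℝ) : ℂ) 0 := by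
    have h1 : HasDerivAt (fun w : ℂ => w - -z) 1 0 := (hasDerivAt_id _).sub_const _
    have h2 : HasDerivAt (fun w : ℂ => 1 - conj (-z) * w) (-(conj (-z) * 1)) 0 :=
      ((hasDerivAt_id (0:ℂ)).const_mul (conj (-z))).const_sub 1
    have h3 := h1.div h2 (by simp)
    refine h3.congr_deriv ?_
    simp only [mul_zero, sub_zero, map_neg, mul_one, sub_neg_eq_add, zero_add, one_pow,
      div_one, neg_neg]
    rw [Complex.mul_conj, Complex.normSq_eq_norm_sq]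
    push_cast
    ring
  have hm : SelfMap (fun w => mob (f z) (f w)) := (mob_selfMap (hf.maps z hz)).comp hf
  have hg : SelfMap (fun w => mob (f z) (f (mob (-z) w))) := hm.comp hφ
  have hd : HasDerivAt (fun w => mob (f z) (f w)) (deriv f z / (1 - ‖f z‖ ^ 2 : ℝ))
      (mob (-z) 0) := by
    rw [hφ0]
    exact hasDerivAt_mob (hf.differentiableAt hz) (hf.maps z hz)
  have hd2 := hd.comp 0 hφd
  have hs := Complex.norm_deriv_le_one_of_mapsTo_ball (c := 0) (R := 1) hg.diff (by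
    intro w hw
    have h0 : mob (f z) (f (mob (-z) 0)) = 0 := by
      rw [hφ0, mob_self]
    have := (hg.maps w hw).le
    simp only [h0]
    simpa using this) one_pos
  have he : deriv (fun w => mob (f z) (f (mob (-z) w))) 0 =
      deriv f z / ((1 - ‖f z‖ ^ 2 : ℝ) : ℂ) * ((1 - ‖z‖ ^ 2 : ℝ) : ℂ) := hd2.deriv
  rw [he, norm_mul, norm_div, Complex.norm_real, Complex.norm_real, Real.norm_eq_abs,
    Real.norm_eq_abs, abs_of_pos (hf.pos hz), abs_of_pos (one_sub_pos (norm_nonneg _) hz1),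
    div_mul_eq_mul_div, div_le_one (hf.pos hz)] at hs
  exact hs

/-- a maximum principle -/
lemma max_principle {v : ℂ → ℝ} (hc : ContinuousOn v (ball 0 1))
    (hb : ∀ δ : ℝ, 0 < δ → δ < 1 → ∃ r < 1, ∀ z : ℂ, r < ‖z‖ → ‖z‖ < 1 → v z * (1 - δ) ≤ 1)
    (hloc : ∀ ε : ℝ, 0 < ε → ∀ z₀ ∈ ball (0:ℂ) 1, 1 < v z₀ →
      ¬ IsLocalMax (fun z => v z * Real.exp (ε * ‖z‖ ^ 2)) z₀) :
    ∀ z ∈ ball (0:ℂ) 1, v z ≤ 1 := by
  intro z₁ hz₁
  by_contra hcon
  push Not at hcon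
  have hz₁' : ‖z₁‖ < 1 := by simpa using hz₁
  set ε : ℝ := Real.log (v z₁) / 4 with hε
  have hlog : 0 < Real.log (v z₁) := Real.log_pos hcon
  have hε0 : 0 < ε := by positivity
  have hκ : v z₁ = Real.exp (4 * ε) := by
    rw [hε, mul_div_cancel₀ _ (by norm_num : (4:ℝ) ≠ 0), Real.exp_log (by linarith)]
  have hδ1 : 0 < 1 - Real.exp (-ε) := by
    have : Real.exp (-ε) < 1 := by rw [Real.exp_lt_one_iff]; linarith
    linarith
  have hδ2 : 1 - Real.exp (-ε) < 1 := by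
    have := Real.exp_pos (-ε)
    linarith
  obtain ⟨r, hr, hbr⟩ := hb _ hδ1 hδ2
  rw [sub_sub_cancel] at hbr
  set R : ℝ := max r ‖z₁‖ with hR
  have hR1 : R < 1 := max_lt hr hz₁'
  have hR0 : 0 ≤ R := (norm_nonneg z₁).trans (le_max_right _ _)
  have hsub : closedBall (0:ℂ) R ⊆ ball 0 1 := closedBall_subset_ball hR1
  set w : ℂ → ℝ := fun z => v z * Real.exp (ε * ‖z‖ ^ 2) with hw
  have hwc : ContinuousOn w (closedBall 0 R) := by
    apply (hc.mono hsub).mul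
    apply Continuous.continuousOn
    fun_prop
  obtain ⟨z₀, hz₀, hmax⟩ := (isCompact_closedBall (0:ℂ) R).exists_isMaxOn
    ⟨0, by simpa using hR0⟩ hwc
  have hz₁R : z₁ ∈ closedBall (0:ℂ) R := by
    rw [mem_closedBall_zero_iff]; exact le_max_right _ _
  have h1 : w z₁ ≤ w z₀ := hmax hz₁R
  have hκw : Real.exp (4 * ε) ≤ w z₁ := by
    rw [hw]
    simp only
    rw [hκ]
    have : 1 ≤ Real.exp (ε * ‖z₁‖ ^ 2) := Real.one_le_exp (by positivity)
    have h2 := Real.exp_pos (4 * ε)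
    nlinarith
  have hz₀b : z₀ ∈ ball (0:ℂ) 1 := hsub hz₀
  have hz₀1 : ‖z₀‖ < 1 := by simpa using hz₀b
  have hfar : ∀ z : ℂ, ‖z‖ < 1 → R < ‖z‖ → w z ≤ w z₀ := by
    intro z hz hRz
    have h3 := hbr z (lt_of_le_of_lt (le_max_left _ _) hRz) hz
    have h4 : v z ≤ Real.exp ε := by
      rw [Real.exp_neg, ← div_eq_mul_inv, div_le_one (Real.exp_pos _)] at h3
      exact h3
    have h5 : w z ≤ Real.exp ε * Real.exp ε := by
      rw [hw]
      simp only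
      have e1 : Real.exp (ε * ‖z‖ ^ 2) ≤ Real.exp ε := by
        apply Real.exp_le_exp.2
        have : ‖z‖ ^ 2 ≤ 1 := by
          have := norm_nonneg z
          nlinarith
        nlinarith
      calc v z * Real.exp (ε * ‖z‖ ^ 2) ≤ Real.exp ε * Real.exp (ε * ‖z‖ ^ 2) := by
            apply mul_le_mul_of_nonneg_right h4 (Real.exp_pos _).le
        _ ≤ Real.exp ε * Real.exp ε := by
            apply mul_le_mul_of_nonneg_left e1 (Real.exp_pos _).le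
    have h6 : Real.exp ε * Real.exp ε ≤ Real.exp (4 * ε) := by
      rw [← Real.exp_add]
      apply Real.exp_le_exp.2
      linarith
    linarith
  have hloc' : IsLocalMax w z₀ := by
    filter_upwards [isOpen_ball.mem_nhds hz₀b] with z hz
    by_cases h : ‖z‖ ≤ R
    · exact hmax (by simpa using h)
    · exact hfar z (by simpa using hz) (not_le.1 h)
  have hv0 : 1 < v z₀ := by
    have h7 : Real.exp (4 * ε) ≤ v z₀ * Real.exp (ε * ‖z₀‖ ^ 2) := hκw.trans h1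
    have h8 : Real.exp (ε * ‖z₀‖ ^ 2) ≤ Real.exp ε := by
      apply Real.exp_le_exp.2
      have : ‖z₀‖ ^ 2 ≤ 1 := by
        have := norm_nonneg z₀
        nlinarith
      nlinarith
    have h9 : Real.exp ε < Real.exp (4 * ε) := by
      apply Real.exp_lt_exp.2
      linarith
    by_contra hc'
    push Not at hc'
    have h10 := Real.exp_pos (ε * ‖z₀‖ ^ 2)
    nlinarith
  exact hloc ε hε0 z₀ hz₀b hv0 hloc'

/-- `E` is a holomorphic self-map of the disc which is asymptotically isometric at the circle -/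
structure Barrier (E : ℂ → ℂ) : Prop where
  self : SelfMap E
  bdry : ∀ δ : ℝ, 0 < δ → δ < 1 → ∃ r < 1, ∀ z : ℂ, r < ‖z‖ → ‖z‖ < 1 →
    (1 - δ) * (1 - ‖E z‖ ^ 2) ≤ ‖deriv E z‖ * (1 - ‖z‖ ^ 2)

lemma zero_selfMap : SelfMap (fun _ => (0:ℂ)) :=
  ⟨differentiableOn_const _, fun z _ => by simp⟩

lemma lam_zero (z : ℂ) : lam (fun _ => (0:ℂ)) z = 0 := by
  simp [lam]

lemma lam_nonneg {f : ℂ → ℂ} (hf : SelfMap f) {z : ℂ} (hz : z ∈ ball (0:ℂ) 1) : 0 ≤ lam f z :=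
  div_nonneg (norm_nonneg _) (hf.pos hz).le

/-- **Ahlfors-Nehari comparison** -/
theorem comp_one {A E G₁ : ℂ → ℂ} (hE : Barrier E) (hA : SelfMap A)
    (hG : DifferentiableOn ℂ G₁ (ball 0 1))
    (h : ∀ z ∈ ball (0:ℂ) 1, deriv A z = G₁ z * deriv E z) :
    ∀ z ∈ ball (0:ℂ) 1, ‖G₁ z‖ * (1 - ‖E z‖ ^ 2) / (1 - ‖A z‖ ^ 2) ≤ 1 := by
  apply max_principle
  · refine ContinuousOn.div ?_ ?_ ?_
    · exact hG.continuousOn.norm.mul (continuousOn_const.sub (hE.self.diff.continuousOn.norm.pow 2))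
    · exact continuousOn_const.sub (hA.diff.continuousOn.norm.pow 2)
    · intro z hz
      exact (hA.pos hz).ne'
  · intro δ hδ hδ1
    obtain ⟨r, hr, hb⟩ := hE.bdry δ hδ hδ1
    refine ⟨r, hr, fun z hz hz1 => ?_⟩
    have hzb : z ∈ ball (0:ℂ) 1 := by simpa using hz1
    rw [div_mul_eq_mul_div, div_le_one (hA.pos hzb)]
    have h1 := hb z hz hz1
    have h2 := hA.schwarz_pick hzb
    rw [h z hzb, norm_mul] at h2
    have h3 := mul_le_mul_of_nonneg_left h1 (norm_nonneg (G₁ z))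
    nlinarith
  · intro ε hε z₀ hz₀ hv hmax
    have hG0 : G₁ z₀ ≠ 0 := by
      intro h0
      rw [h0, norm_zero, zero_mul, zero_div] at hv
      linarith
    have hlm := local_max (f₁ := E) (f₂ := fun _ => 0) (f₃ := A) (f₄ := fun _ => 0) (G := G₁)
      (z₀ := z₀) (ε := ε) isOpen_ball hz₀ hE.self.diff zero_selfMap.diff hA.diff zero_selfMap.diff
      hG hE.self.maps zero_selfMap.maps hA.maps zero_selfMap.maps hG0 (by simpa using hmax)
    rw [lam_zero] at hlm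
    have hEp := hE.self.pos hz₀
    have hAp := hA.pos hz₀
    rw [one_lt_div hAp] at hv
    have h4 : lam E z₀ ≤ lam A z₀ := by
      rw [lam, lam, div_le_div_iff₀ hEp hAp, h z₀ hz₀, norm_mul]
      have := norm_nonneg (deriv E z₀)
      nlinarith
    have h5 := lam_nonneg hE.self hz₀
    nlinarith

/-- **The comparison theorem.** Here `|M'| / |C'|` is `|H|` and `|(B ∘ C)'| / |E'|` is `|G₁|`. -/
theorem comp_two {B C M E G₁ H : ℂ → ℂ} (hE : Barrier E) (hB : SelfMap B) (hC : SelfMap C)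
    (hM : SelfMap M) (hG : DifferentiableOn ℂ G₁ (ball 0 1)) (hH : DifferentiableOn ℂ H (ball 0 1))
    (h : ∀ z ∈ ball (0:ℂ) 1, deriv (fun w => B (C w)) z = G₁ z * deriv E z)
    (hMC : ∀ z ∈ ball (0:ℂ) 1, deriv M z = H z * deriv C z) :
    ∀ z ∈ ball (0:ℂ) 1, ‖H z * G₁ z‖ * (1 - ‖C z‖ ^ 2) * (1 - ‖E z‖ ^ 2) /
      ((1 - ‖B (C z)‖ ^ 2) * (1 - ‖M z‖ ^ 2)) ≤ 1 := by
  have hA : SelfMap (fun w => B (C w)) := hB.comp hC
  have hCz : ∀ z ∈ ball (0:ℂ) 1, C z ∈ ball (0:ℂ) 1 := fun z hz => by simpa using hC.maps z hz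
  have hder : ∀ z ∈ ball (0:ℂ) 1, deriv (fun w => B (C w)) z = deriv B (C z) * deriv C z :=
    fun z hz => ((hB.differentiableAt (hCz z hz)).hasDerivAt.comp z
      (hC.differentiableAt hz).hasDerivAt).deriv
  have hone := comp_one hE hA hG h
  apply max_principle
  · refine ContinuousOn.div ?_ ?_ ?_
    · refine ((hH.mul hG).continuousOn.norm.mul
        (continuousOn_const.sub (hC.diff.continuousOn.norm.pow 2))).mul
        (continuousOn_const.sub (hE.self.diff.continuousOn.norm.pow 2))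
    · exact (continuousOn_const.sub (hA.diff.continuousOn.norm.pow 2)).mul
        (continuousOn_const.sub (hM.diff.continuousOn.norm.pow 2))
    · intro z hz
      exact (mul_pos (hA.pos hz) (hM.pos hz)).ne'
  · intro δ hδ hδ1
    obtain ⟨r, hr, hb⟩ := hE.bdry δ hδ hδ1
    refine ⟨r, hr, fun z hz hz1 => ?_⟩
    have hzb : z ∈ ball (0:ℂ) 1 := by simpa using hz1
    have hAp : 0 < 1 - ‖B (C z)‖ ^ 2 := hA.pos hzb
    have hMp := hM.pos hzb
    have hCp := hC.pos hzb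
    rw [div_mul_eq_mul_div, div_le_one (mul_pos hAp hMp)]
    have h1 := hb z hz hz1
    have h2 := hM.schwarz_pick hzb
    have h3 := hB.schwarz_pick (hCz z hzb)
    -- `‖H G₁‖ ‖E'‖ = ‖B'(C)‖ ‖M'‖`
    have h4 : ‖H z * G₁ z‖ * ‖deriv E z‖ = ‖deriv B (C z)‖ * ‖deriv M z‖ := by
      rw [← norm_mul, ← norm_mul]
      congr 1
      have e := h z hzb
      rw [hder z hzb] at e
      rw [hMC z hzb]
      calc H z * G₁ z * deriv E z = H z * (G₁ z * deriv E z) := by ring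
        _ = H z * (deriv B (C z) * deriv C z) := by rw [e]
        _ = _ := by ring
    calc ‖H z * G₁ z‖ * (1 - ‖C z‖ ^ 2) * (1 - ‖E z‖ ^ 2) * (1 - δ)
        = ‖H z * G₁ z‖ * (1 - ‖C z‖ ^ 2) * ((1 - δ) * (1 - ‖E z‖ ^ 2)) := by ring
      _ ≤ ‖H z * G₁ z‖ * (1 - ‖C z‖ ^ 2) * (‖deriv E z‖ * (1 - ‖z‖ ^ 2)) := by
          apply mul_le_mul_of_nonneg_left h1
          exact mul_nonneg (norm_nonneg _) hCp.le
      _ = (‖H z * G₁ z‖ * ‖deriv E z‖) * (1 - ‖C z‖ ^ 2) * (1 - ‖z‖ ^ 2) := by ring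
      _ = (‖deriv B (C z)‖ * (1 - ‖C z‖ ^ 2)) * (‖deriv M z‖ * (1 - ‖z‖ ^ 2)) := by
          rw [h4]; ring
      _ ≤ (1 - ‖B (C z)‖ ^ 2) * (1 - ‖M z‖ ^ 2) := by
          apply mul_le_mul h3 h2 _ hAp.le
          exact mul_nonneg (norm_nonneg _) (one_sub_pos (norm_nonneg _) hz1).le
  · intro ε hε z₀ hz₀ hv hmax
    have hG0 : H z₀ * G₁ z₀ ≠ 0 := by
      intro h0
      rw [h0, norm_zero, zero_mul, zero_mul, zero_div] at hv
      linarith
    have hlm := local_max (f₁ := C) (f₂ := E) (f₃ := fun w => B (C w)) (f₄ := M)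
      (G := fun z => H z * G₁ z)
      (z₀ := z₀) (ε := ε) isOpen_ball hz₀ hC.diff hE.self.diff hA.diff hM.diff
      (hH.mul hG) hC.maps hE.self.maps hA.maps hM.maps hG0 hmax
    have hEp := hE.self.pos hz₀
    have hAp : 0 < 1 - ‖B (C z₀)‖ ^ 2 := hA.pos hz₀
    have hMp := hM.pos hz₀
    have hCp := hC.pos hz₀
    obtain ⟨r, hr⟩ : ∃ r, r = ‖H z₀‖ * (1 - ‖C z₀‖ ^ 2) / (1 - ‖M z₀‖ ^ 2) := ⟨_, rfl⟩
    obtain ⟨τ, hτ⟩ : ∃ τ, τ = ‖G₁ z₀‖ * (1 - ‖E z₀‖ ^ 2) / (1 - ‖B (C z₀)‖ ^ 2) := ⟨_, rfl⟩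
    have hτ1 : τ ≤ 1 := by rw [hτ]; exact hone z₀ hz₀
    have hτ0 : 0 ≤ τ := by rw [hτ]; positivity
    have hr0 : 0 ≤ r := by rw [hr]; positivity
    have hrτ : 1 < r * τ := by
      have : ‖H z₀ * G₁ z₀‖ * (1 - ‖C z₀‖ ^ 2) * (1 - ‖E z₀‖ ^ 2) /
        ((1 - ‖B (C z₀)‖ ^ 2) * (1 - ‖M z₀‖ ^ 2)) = r * τ := by
        rw [hr, hτ, norm_mul]
        field_simp
      rw [← this]
      exact hv
    have hr1 : 1 < r := by nlinarith
    have eM : lam M z₀ = r * lam C z₀ := by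
      rw [lam, lam, hr, hMC z₀ hz₀, norm_mul]
      field_simp
    have eA : lam (fun w => B (C w)) z₀ = τ * lam E z₀ := by
      rw [lam, lam, hτ, h z₀ hz₀, norm_mul]
      field_simp
    have hAC : lam (fun w => B (C w)) z₀ ≤ lam C z₀ := by
      rw [lam, lam, div_le_div_iff₀ hAp hCp, hder z₀ hz₀, norm_mul]
      have h3 := hB.schwarz_pick (hCz z₀ hz₀)
      have := mul_le_mul_of_nonneg_right h3 (norm_nonneg (deriv C z₀))
      nlinarith
    have hE0 := lam_nonneg hE.self hz₀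
    have hC0 := lam_nonneg hC hz₀
    rw [eM, eA] at hlm
    rw [eA] at hAC
    have h6 : (τ * lam E z₀) ^ 2 ≤ lam C z₀ ^ 2 :=
      pow_le_pow_left₀ (mul_nonneg hτ0 hE0) hAC 2
    have h7 : (r ^ 2 - 1) * (τ * lam E z₀) ^ 2 ≤ (r ^ 2 - 1) * lam C z₀ ^ 2 := by
      apply mul_le_mul_of_nonneg_left h6
      nlinarith
    have h8 : 1 ≤ (r * τ) ^ 2 := by nlinarith
    have h9 : lam E z₀ ^ 2 ≤ (r * τ) ^ 2 * lam E z₀ ^ 2 := by
      have := sq_nonneg (lam E z₀)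
      nlinarith
    nlinarith

end Pool.Agent.E8helper80.MB
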