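import Mathlib

/-!
# The variational problem behind finite Blaschke products with prescribed critical points

For points `a k + i b k` of the upper half-plane we maximise
`∏_{i ≠ l} |x i - x l| / ∏_j g (x j)`, `g t = ∏_k ((t - a k)² + (b k)²)`, over real vectors `x`.
-/

set_option autoImplicit false

open Filter Topology Metric Finset Polynomial

namespace Pool.Agent.E8helper80.MB

variable {d : ℕ}

/-- the product of all distances -/
noncomputable def WW (x : Fin d → ℝ) : ℝ := ∏ i, ∏ l ∈ univ.erase i, |x i - x l|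

/-- the weight -/
noncomputable def gg (a b : Fin d → ℝ) (t : ℝ) : ℝ := ∏ k, ((t - a k) ^ 2 + b k ^ 2)

/-- the objective -/
noncomputable def Psi (a b : Fin d → ℝ) (x : Fin d → ℝ) : ℝ := WW x / ∏ j, gg a b (x j)

lemma gg_pos {a b : Fin d → ℝ} (hb : ∀ k, 0 < b k) (t : ℝ) : 0 < gg a b t := by
  unfold gg
  refine Finset.prod_pos fun k _ => ?_
  have := hb k
  positivity

lemma WW_nonneg (x : Fin d → ℝ) : 0 ≤ WW x :=
  Finset.prod_nonneg fun i _ => Finset.prod_nonneg fun l _ => abs_nonneg _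

lemma abs_sub_le_sqrt (x y : ℝ) : |x - y| ≤ √(1 + x ^ 2) * √(1 + y ^ 2) := by
  rw [← Real.sqrt_mul (by positivity)]
  apply Real.abs_le_sqrt
  nlinarith [sq_nonneg (1 + x * y)]

lemma WW_bound (x : Fin d → ℝ) : WW x * ∏ i, (1 + x i ^ 2) ≤ ∏ i, (1 + x i ^ 2) ^ d := by
  set s : Fin d → ℝ := fun i => √(1 + x i ^ 2) with hs
  have hs0 : ∀ i, 0 ≤ s i := fun i => Real.sqrt_nonneg _
  have hs2 : ∀ i, s i * s i = 1 + x i ^ 2 := fun i => Real.mul_self_sqrt (by positivity)
  set S : ℝ := ∏ i, s i with hS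
  have h1 : ∀ i, (∏ l ∈ univ.erase i, |x i - x l|) * (1 + x i ^ 2) ≤ s i ^ d * S := by
    intro i
    have hd : 0 < d := i.pos
    have h2 : ∏ l ∈ univ.erase i, |x i - x l| ≤ ∏ l ∈ univ.erase i, (s i * s l) :=
      Finset.prod_le_prod (fun l _ => abs_nonneg _) fun l _ => abs_sub_le_sqrt _ _
    rw [Finset.prod_mul_distrib, Finset.prod_const, Finset.card_erase_of_mem (mem_univ i),
      card_univ, Fintype.card_fin] at h2
    have h3 : s i * ∏ l ∈ univ.erase i, s l = S := Finset.mul_prod_erase univ s (mem_univ i)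
    have h4 : s i * s i ^ (d - 1) = s i ^ d := by
      rw [← pow_succ']; congr 1; omega
    calc (∏ l ∈ univ.erase i, |x i - x l|) * (1 + x i ^ 2)
        ≤ (s i ^ (d - 1) * ∏ l ∈ univ.erase i, s l) * (1 + x i ^ 2) := by
          apply mul_le_mul_of_nonneg_right h2 (by positivity)
      _ = (s i ^ (d - 1) * ∏ l ∈ univ.erase i, s l) * (s i * s i) := by rw [hs2]
      _ = (s i * s i ^ (d - 1)) * (s i * ∏ l ∈ univ.erase i, s l) := by ring
      _ = s i ^ d * S := by rw [h3, h4]
  calc WW x * ∏ i, (1 + x i ^ 2) = ∏ i, ((∏ l ∈ univ.erase i, |x i - x l|) * (1 + x i ^ 2)) := by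
        rw [WW, ← Finset.prod_mul_distrib]
    _ ≤ ∏ i, (s i ^ d * S) := by
        refine Finset.prod_le_prod (fun i _ => ?_) fun i _ => h1 i
        exact mul_nonneg (Finset.prod_nonneg fun l _ => abs_nonneg _) (by positivity)
    _ = S ^ d * S ^ d := by
        rw [Finset.prod_mul_distrib, Finset.prod_pow, Finset.prod_const, card_univ,
          Fintype.card_fin]
    _ = ∏ i, (1 + x i ^ 2) ^ d := by
        rw [← mul_pow, hS, ← Finset.prod_mul_distrib, Finset.prod_pow]
        congr 1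
        exact Finset.prod_congr rfl fun i _ => hs2 i

lemma one_add_le {a b t : ℝ} (hb : 0 < b) :
    1 + t ^ 2 ≤ (1 + a ^ 2 + b ^ 2) / b ^ 2 * ((t - a) ^ 2 + b ^ 2) := by
  rw [div_mul_eq_mul_div, le_div_iff₀ (by positivity)]
  nlinarith [sq_nonneg (t * a - a ^ 2 - b ^ 2), sq_nonneg (t - a), sq_nonneg (b ^ 2),
    sq_nonneg ((t - a) * a - b ^ 2 + 0), mul_pos hb hb, sq_nonneg ((t - a) - a * 0),
    sq_nonneg (t - a - a), sq_nonneg ((t-a)*a - 1), sq_nonneg (b*(t - a) ), sq_nonneg (b*t),
    sq_nonneg (b * a - (t-a)), sq_nonneg (b^2 - a*(t-a))]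

lemma Psi_bound {a b : Fin d → ℝ} (hb : ∀ k, 0 < b k) :
    ∃ Λ : ℝ, ∀ (x : Fin d → ℝ) (j : Fin d), Psi a b x * (1 + x j ^ 2) ≤ Λ := by
  refine ⟨(∏ k, (1 + a k ^ 2 + b k ^ 2) / b k ^ 2) ^ d, fun x j => ?_⟩
  have hG : 0 < ∏ j, gg a b (x j) := Finset.prod_pos fun j _ => gg_pos hb _
  have h1 : ∏ i, (1 + x i ^ 2) ^ d ≤
      (∏ k, (1 + a k ^ 2 + b k ^ 2) / b k ^ 2) ^ d * ∏ j, gg a b (x j) := by
    have h2 : ∀ i : Fin d, (1 + x i ^ 2) ^ d ≤
        (∏ k, (1 + a k ^ 2 + b k ^ 2) / b k ^ 2) * gg a b (x i) := by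
      intro i
      calc (1 + x i ^ 2) ^ d = ∏ _k : Fin d, (1 + x i ^ 2) := by
            rw [Finset.prod_const, card_univ, Fintype.card_fin]
        _ ≤ ∏ k, ((1 + a k ^ 2 + b k ^ 2) / b k ^ 2 * ((x i - a k) ^ 2 + b k ^ 2)) :=
            Finset.prod_le_prod (fun k _ => by positivity) fun k _ => one_add_le (hb k)
        _ = _ := by rw [Finset.prod_mul_distrib]; rfl
    calc ∏ i, (1 + x i ^ 2) ^ d ≤
        ∏ i, ((∏ k, (1 + a k ^ 2 + b k ^ 2) / b k ^ 2) * gg a b (x i)) :=
          Finset.prod_le_prod (fun i _ => by positivity) fun i _ => h2 i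
      _ = _ := by
          rw [Finset.prod_mul_distrib, Finset.prod_const, card_univ, Fintype.card_fin]
  have h3 := WW_bound x
  have h4 : 1 + x j ^ 2 ≤ ∏ i, (1 + x i ^ 2) := by
    rw [← Finset.mul_prod_erase univ (fun i => 1 + x i ^ 2) (mem_univ j)]
    have : 1 ≤ ∏ i ∈ univ.erase j, (1 + x i ^ 2) := by
      calc (1:ℝ) = ∏ _i ∈ univ.erase j, (1:ℝ) := Finset.prod_const_one.symm
        _ ≤ ∏ i ∈ univ.erase j, (1 + x i ^ 2) := by
            refine Finset.prod_le_prod (fun i _ => zero_le_one) fun i _ => ?_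
            have := sq_nonneg (x i)
            linarith
    have h5 : 0 ≤ 1 + x j ^ 2 := by positivity
    nlinarith
  rw [Psi, div_mul_eq_mul_div, div_le_iff₀ hG]
  calc WW x * (1 + x j ^ 2) ≤ WW x * ∏ i, (1 + x i ^ 2) :=
        mul_le_mul_of_nonneg_left h4 (WW_nonneg x)
    _ ≤ ∏ i, (1 + x i ^ 2) ^ d := h3
    _ ≤ _ := h1

lemma Psi_continuous {a b : Fin d → ℝ} (hb : ∀ k, 0 < b k) : Continuous (Psi a b) := by
  unfold Psi WW
  refine Continuous.div ?_ ?_ ?_
  · refine continuous_finsetProd _ fun i _ => continuous_finsetProd _ fun l _ => ?_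
    exact ((continuous_apply i).sub (continuous_apply l)).abs
  · refine continuous_finsetProd _ fun i _ => ?_
    unfold gg
    refine continuous_finsetProd _ fun k _ => ?_
    exact (((continuous_apply i).sub continuous_const).pow 2).add continuous_const
  · intro x
    exact (Finset.prod_pos fun j _ => gg_pos hb _).ne'

lemma Psi_nonneg {a b : Fin d → ℝ} (hb : ∀ k, 0 < b k) (x : Fin d → ℝ) : 0 ≤ Psi a b x :=
  div_nonneg (WW_nonneg x) (Finset.prod_nonneg fun j _ => (gg_pos hb _).le)

/-- the maximum is attained, at a point with distinct coordinates -/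
theorem exists_max {a b : Fin d → ℝ} (hb : ∀ k, 0 < b k) :
    ∃ x : Fin d → ℝ, (∀ y, Psi a b y ≤ Psi a b x) ∧ 0 < Psi a b x := by
  set x₀ : Fin d → ℝ := fun i => (i : ℕ) with hx₀
  have h0 : 0 < Psi a b x₀ := by
    refine div_pos ?_ (Finset.prod_pos fun j _ => gg_pos hb _)
    refine Finset.prod_pos fun i _ => Finset.prod_pos fun l hl => ?_
    rw [abs_pos, sub_ne_zero, hx₀]
    have h1 : l ≠ i := Finset.ne_of_mem_erase hl
    intro h2
    apply h1
    have h3 : ((i : ℕ) : ℝ) = ((l : ℕ) : ℝ) := h2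
    have h4 : (i : ℕ) = (l : ℕ) := by exact_mod_cast h3
    exact Fin.ext h4.symm
  obtain ⟨Λ, hΛ⟩ := Psi_bound (a := a) hb
  set K : Set (Fin d → ℝ) := {x | Psi a b x₀ ≤ Psi a b x} with hK
  have hKc : IsClosed K := isClosed_le continuous_const (Psi_continuous hb)
  have hKb : Bornology.IsBounded K := by
    rw [isBounded_iff_forall_norm_le]
    refine ⟨1 + |Λ| / Psi a b x₀, fun x hx => ?_⟩
    rw [pi_norm_le_iff_of_nonneg (by positivity)]
    intro j
    have h1 := hΛ x j
    have h2 : Psi a b x₀ * (1 + x j ^ 2) ≤ |Λ| := by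
      have h3 : Psi a b x₀ * (1 + x j ^ 2) ≤ Psi a b x * (1 + x j ^ 2) :=
        mul_le_mul_of_nonneg_right hx (by positivity)
      exact h3.trans (h1.trans (le_abs_self _))
    have h3 : 1 + x j ^ 2 ≤ |Λ| / Psi a b x₀ := by
      rw [le_div_iff₀ h0]; linarith
    have h4 : |x j| ≤ 1 + x j ^ 2 := by
      rw [abs_le]
      constructor <;> nlinarith [sq_nonneg (x j - 1), sq_nonneg (x j + 1)]
    rw [Real.norm_eq_abs]
    linarith
  obtain ⟨x, hxK, hmax⟩ := (Metric.isCompact_of_isClosed_isBounded hKc hKb).exists_isMaxOn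
    ⟨x₀, show Psi a b x₀ ≤ Psi a b x₀ from le_refl _⟩ (Psi_continuous hb).continuousOn
  refine ⟨x, fun y => ?_, lt_of_lt_of_le h0 hxK⟩
  by_cases hy : y ∈ K
  · exact hmax hy
  · rw [hK, Set.mem_ofPred_eq, not_le] at hy
    exact hy.le.trans hxK

lemma WW_split (j : Fin d) (y : Fin d → ℝ) :
    WW y = (∏ l ∈ univ.erase j, |y j - y l|) ^ 2 *
      ∏ i ∈ univ.erase j, ∏ l ∈ (univ.erase i).erase j, |y i - y l| := by
  rw [WW, ← Finset.mul_prod_erase univ _ (mem_univ j)]
  have h1 : ∏ i ∈ univ.erase j, ∏ l ∈ univ.erase i, |y i - y l| =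
      ∏ i ∈ univ.erase j, (|y j - y i| * ∏ l ∈ (univ.erase i).erase j, |y i - y l|) := by
    refine Finset.prod_congr rfl fun i hi => ?_
    have hj : j ∈ univ.erase i := by
      rw [Finset.mem_erase]
      exact ⟨(Finset.ne_of_mem_erase hi).symm, mem_univ j⟩
    rw [← Finset.mul_prod_erase (univ.erase i) _ hj, abs_sub_comm (y i) (y j)]
  rw [h1, Finset.prod_mul_distrib]
  ring

/-- the first order condition -/
theorem first_order {a b : Fin d → ℝ} (hb : ∀ k, 0 < b k) {x : Fin d → ℝ}
    (hmax : ∀ y, Psi a b y ≤ Psi a b x) (hpos : 0 < Psi a b x) (j : Fin d) :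
    IsLocalMax (fun t : ℝ => (∏ l ∈ univ.erase j, (t - x l) ^ 2) / gg a b t) (x j) := by
  set R : ℝ := (∏ i ∈ univ.erase j, ∏ l ∈ (univ.erase i).erase j, |x i - x l|) /
    ∏ i ∈ univ.erase j, gg a b (x i) with hR
  have key : ∀ t : ℝ, Psi a b (Function.update x j t) =
      R * ((∏ l ∈ univ.erase j, (t - x l) ^ 2) / gg a b t) := by
    intro t
    have h1 : ∏ l ∈ univ.erase j, |Function.update x j t j - Function.update x j t l| =
        ∏ l ∈ univ.erase j, |t - x l| := by
      refine Finset.prod_congr rfl fun l hl => ?_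
      rw [Function.update_self, Function.update_of_ne (Finset.ne_of_mem_erase hl)]
    have h2 : ∏ i ∈ univ.erase j, ∏ l ∈ (univ.erase i).erase j,
        |Function.update x j t i - Function.update x j t l| =
        ∏ i ∈ univ.erase j, ∏ l ∈ (univ.erase i).erase j, |x i - x l| := by
      refine Finset.prod_congr rfl fun i hi => Finset.prod_congr rfl fun l hl => ?_
      rw [Function.update_of_ne (Finset.ne_of_mem_erase hi),
        Function.update_of_ne (Finset.ne_of_mem_erase hl)]
    have h3 : ∏ i, gg a b (Function.update x j t i) =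
        gg a b t * ∏ i ∈ univ.erase j, gg a b (x i) := by
      rw [← Finset.mul_prod_erase univ _ (mem_univ j), Function.update_self]
      congr 1
      refine Finset.prod_congr rfl fun i hi => ?_
      rw [Function.update_of_ne (Finset.ne_of_mem_erase hi)]
    have h4 : (∏ l ∈ univ.erase j, |t - x l|) ^ 2 = ∏ l ∈ univ.erase j, (t - x l) ^ 2 := by
      rw [← Finset.prod_pow]
      exact Finset.prod_congr rfl fun l _ => sq_abs _
    rw [Psi, WW_split j, h1, h2, h3, h4, hR]
    have e1 : gg a b t ≠ 0 := (gg_pos hb t).ne'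
    have e2 : ∏ i ∈ univ.erase j, gg a b (x i) ≠ 0 :=
      (Finset.prod_pos fun i _ => gg_pos hb _).ne'
    field_simp
  have hxx : Function.update x j (x j) = x := Function.update_eq_self j x
  have hR0 : 0 < R := by
    have h1 := key (x j)
    rw [hxx] at h1
    rw [h1] at hpos
    have h2 : 0 ≤ (∏ l ∈ univ.erase j, (x j - x l) ^ 2) / gg a b (x j) :=
      div_nonneg (Finset.prod_nonneg fun l _ => sq_nonneg _) (gg_pos hb _).le
    by_contra hc
    push Not at hc
    have := mul_nonpos_of_nonpos_of_nonneg hc h2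
    linarith
  refine Eventually.of_forall fun t => ?_
  have h1 := hmax (Function.update x j t)
  rw [key t] at h1
  have h2 := key (x j)
  rw [hxx] at h2
  rw [h2] at h1
  exact le_of_mul_le_mul_left h1 hR0

lemma distinct {a b : Fin d → ℝ} {x : Fin d → ℝ} (hpos : 0 < Psi a b x) {i l : Fin d}
    (h : i ≠ l) : x i ≠ x l := by
  intro he
  have : WW x = 0 := by
    rw [WW]
    apply Finset.prod_eq_zero (mem_univ i)
    apply Finset.prod_eq_zero (i := l)
    · rw [Finset.mem_erase]; exact ⟨h.symm, mem_univ l⟩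
    · rw [he, sub_self, abs_zero]
  rw [Psi, this, zero_div] at hpos
  exact lt_irrefl _ hpos

/-- the polynomial `g` -/
noncomputable def gp (a b : Fin d → ℝ) : ℝ[X] := ∏ k, ((X - C (a k)) ^ 2 + C (b k ^ 2))

/-- the polynomials `∏_{l ≠ j} (X - x l)²` -/
noncomputable def qp (x : Fin d → ℝ) (j : Fin d) : ℝ[X] := ∏ l ∈ univ.erase j, (X - C (x l)) ^ 2

/-- the polynomial `∏_j (X - x j)²` -/
noncomputable def dp (x : Fin d → ℝ) : ℝ[X] := ∏ j, (X - C (x j)) ^ 2

lemma gp_eval (a b : Fin d → ℝ) (t : ℝ) : (gp a b).eval t = gg a b t := by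
  simp [gp, gg, eval_prod]

lemma qp_eval (x : Fin d → ℝ) (j : Fin d) (t : ℝ) :
    (qp x j).eval t = ∏ l ∈ univ.erase j, (t - x l) ^ 2 := by
  simp [qp, eval_prod]

lemma monic_quad (a b : ℝ) : ((X - C a) ^ 2 + C (b ^ 2) : ℝ[X]).Monic := by
  apply Monic.add_of_left ((monic_X_sub_C a).pow 2)
  rw [degree_pow, degree_X_sub_C]
  exact lt_of_le_of_lt degree_C_le (by norm_num)

lemma natDegree_quad (a b : ℝ) : ((X - C a) ^ 2 + C (b ^ 2) : ℝ[X]).natDegree = 2 := by
  rw [natDegree_add_C, natDegree_pow, natDegree_X_sub_C]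

lemma gp_monic (a b : Fin d → ℝ) : (gp a b).Monic :=
  monic_prod_of_monic _ _ fun k _ => monic_quad _ _

lemma gp_natDegree (a b : Fin d → ℝ) : (gp a b).natDegree = 2 * d := by
  rw [gp, natDegree_prod_of_monic _ _ fun k _ => monic_quad _ _,
    Finset.sum_congr rfl fun k _ => natDegree_quad _ _]
  simp [mul_comm]

lemma dp_monic (x : Fin d → ℝ) : (dp x).Monic :=
  monic_prod_of_monic _ _ fun k _ => (monic_X_sub_C _).pow 2

lemma dp_natDegree (x : Fin d → ℝ) : (dp x).natDegree = 2 * d := by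
  rw [dp, natDegree_prod_of_monic _ _ fun k _ => (monic_X_sub_C _).pow 2]
  simp [mul_comm]

lemma qp_natDegree (x : Fin d → ℝ) (j : Fin d) : (qp x j).natDegree < 2 * d := by
  rw [qp, natDegree_prod_of_monic _ _ fun k _ => (monic_X_sub_C _).pow 2]
  have hd : 0 < d := j.pos
  simp only [natDegree_pow, natDegree_X_sub_C, mul_one, sum_const, smul_eq_mul]
  rw [Finset.card_erase_of_mem (mem_univ j), card_univ, Fintype.card_fin]
  omega

lemma sq_dvd_of {p : ℝ[X]} {t : ℝ} (h0 : p.eval t = 0) (h1 : (derivative p).eval t = 0) :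
    (X - C t) ^ 2 ∣ p := by
  obtain ⟨q, rfl⟩ := dvd_iff_isRoot.2 h0
  rw [derivative_mul, derivative_X_sub_C, one_mul, eval_add, eval_mul] at h1
  simp only [eval_sub, eval_X, eval_C, sub_self, zero_mul, add_zero] at h1
  obtain ⟨r, rfl⟩ := dvd_iff_isRoot.2 h1
  exact ⟨r, by ring⟩

/-- **Partial fractions without residues.** -/
theorem partial_fractions {a b : Fin d → ℝ} (hb : ∀ k, 0 < b k) :
    ∃ (x α : Fin d → ℝ), (∀ j, 0 < α j) ∧ Function.Injective x ∧
      gp a b = dp x + ∑ j, C (α j) * qp x j := by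
  obtain ⟨x, hmax, hpos⟩ := exists_max (a := a) hb
  have hinj : Function.Injective x := by
    intro i l h
    by_contra hne
    exact distinct hpos hne h
  have hq0 : ∀ j, 0 < (qp x j).eval (x j) := by
    intro j
    rw [qp_eval]
    refine Finset.prod_pos fun l hl => ?_
    have : x j - x l ≠ 0 := sub_ne_zero.2 (distinct hpos (Finset.ne_of_mem_erase hl).symm)
    positivity
  have hg0 : ∀ t, 0 < (gp a b).eval t := fun t => by rw [gp_eval]; exact gg_pos hb t
  -- derivative condition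
  have hder : ∀ j, (derivative (qp x j)).eval (x j) * (gp a b).eval (x j) =
      (qp x j).eval (x j) * (derivative (gp a b)).eval (x j) := by
    intro j
    have h1 := first_order hb hmax hpos j
    have h2 : (fun t : ℝ => (∏ l ∈ univ.erase j, (t - x l) ^ 2) / gg a b t) =
        fun t => (qp x j).eval t / (gp a b).eval t := by
      funext t
      rw [qp_eval, gp_eval]
    rw [h2] at h1
    have h3 : HasDerivAt (fun t => (qp x j).eval t / (gp a b).eval t)
        (((derivative (qp x j)).eval (x j) * (gp a b).eval (x j) -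
          (qp x j).eval (x j) * (derivative (gp a b)).eval (x j)) /
          (gp a b).eval (x j) ^ 2) (x j) :=
      ((qp x j).hasDerivAt (x j)).div ((gp a b).hasDerivAt (x j)) (hg0 _).ne'
    have h4 := h1.hasDerivAt_eq_zero h3
    rw [div_eq_zero_iff] at h4
    rcases h4 with h4 | h4
    · linarith
    · exact absurd h4 (pow_ne_zero 2 (hg0 _).ne')
  set α : Fin d → ℝ := fun j => (gp a b).eval (x j) / (qp x j).eval (x j) with hα
  refine ⟨x, α, fun j => div_pos (hg0 _) (hq0 j), hinj, ?_⟩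
  -- the difference
  set R : ℝ[X] := gp a b - dp x - ∑ j, C (α j) * qp x j with hR
  have hdvdq : ∀ i j, i ≠ j → (X - C (x j)) ^ 2 ∣ qp x i := by
    intro i j hij
    exact Finset.dvd_prod_of_mem _ (by rw [Finset.mem_erase]; exact ⟨hij.symm, mem_univ j⟩)
  have hsqz : ∀ {p : ℝ[X]} {t : ℝ}, (X - C t) ^ 2 ∣ p → p.eval t = 0 ∧
      (derivative p).eval t = 0 := by
    rintro p t ⟨q, rfl⟩
    constructor
    · simp
    · rw [derivative_mul, derivative_X_sub_C_sq]
      simp
  have hdvd : ∀ j, (X - C (x j)) ^ 2 ∣ R := by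
    intro j
    have h1 : ∑ i, C (α i) * qp x i = C (α j) * qp x j + ∑ i ∈ univ.erase j, C (α i) * qp x i :=
      (Finset.add_sum_erase univ _ (mem_univ j)).symm
    have h2 : (X - C (x j)) ^ 2 ∣ ∑ i ∈ univ.erase j, C (α i) * qp x i := by
      refine Finset.dvd_sum fun i hi => ?_
      exact (hdvdq i j (Finset.ne_of_mem_erase hi)).mul_left _
    have h3 : (X - C (x j)) ^ 2 ∣ dp x := Finset.dvd_prod_of_mem _ (mem_univ j)
    have h4 : (X - C (x j)) ^ 2 ∣ gp a b - C (α j) * qp x j := by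
      apply sq_dvd_of
      · rw [eval_sub, eval_mul, eval_C, hα]
        have := (hq0 j).ne'
        field_simp
        ring
      · rw [derivative_sub, derivative_C_mul, eval_sub, eval_mul, eval_C, hα]
        have e := hder j
        have := (hq0 j).ne'
        simp only
        rw [div_mul_eq_mul_div, mul_comm ((gp a b).eval (x j)), e, mul_div_assoc,
          mul_comm, div_mul_cancel₀ _ this, sub_self]
    have h5 : R = (gp a b - C (α j) * qp x j) - dp x - ∑ i ∈ univ.erase j, C (α i) * qp x i := by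
      rw [hR, h1]; ring
    rw [h5]
    exact (h4.sub h3).sub h2
  have hprod : dp x ∣ R := by
    apply Finset.prod_dvd_of_coprime
    · intro i _ j _ hij
      apply IsCoprime.pow
      exact pairwise_coprime_X_sub_C hinj hij
    · intro j _
      exact hdvd j
  have hdeg : R.degree < (dp x).degree := by
    have e1 : (gp a b - dp x).degree < (dp x).degree := by
      have h1 : (gp a b).degree = (dp x).degree := by
        rw [degree_eq_natDegree (gp_monic a b).ne_zero, degree_eq_natDegree (dp_monic x).ne_zero,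
          gp_natDegree, dp_natDegree]
      rw [← h1]
      apply degree_sub_lt_left h1 (gp_monic a b).ne_zero
      rw [(gp_monic a b).leadingCoeff, (dp_monic x).leadingCoeff]
    have e2 : (∑ j, C (α j) * qp x j).degree < (dp x).degree := by
      rw [degree_eq_natDegree (dp_monic x).ne_zero, dp_natDegree]
      refine lt_of_le_of_lt (degree_sum_le _ _) ?_
      rw [Finset.sup_lt_iff (WithBot.bot_lt_coe _)]
      intro j _
      refine lt_of_le_of_lt (degree_mul_le _ _) ?_
      refine lt_of_le_of_lt (add_le_add degree_C_le degree_le_natDegree) ?_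
      rw [zero_add]
      exact_mod_cast qp_natDegree x j
    exact lt_of_le_of_lt (degree_sub_le _ _) (max_lt e1 e2)
  have hR0 : R = 0 := eq_zero_of_dvd_of_degree_lt hprod hdeg
  have : gp a b = dp x + ∑ j, C (α j) * qp x j + R := by rw [hR]; ring
  rw [this, hR0, add_zero]

end Pool.Agent.E8helper80.MB
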