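import Mathlib
import Pool.Agent.E8helper80.MB.Comp
import Pool.Agent.E8helper80.MB.Vari

/-!
# Finite Blaschke products with prescribed critical points: algebra on the half-plane side
-/

set_option autoImplicit false

open Filter Topology Metric Complex Finset
open scoped ComplexConjugate

namespace Pool.Agent.E8helper80.MB

variable {d : ℕ}

/-- the Cayley transform -/
noncomputable def kap (w : ℂ) : ℂ := I * (1 + w) / (1 - w)

lemma one_sub_ne {w : ℂ} (hw : ‖w‖ < 1) : 1 - w ≠ 0 := by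
  intro h
  have : w = 1 := (sub_eq_zero.1 h).symm
  rw [this, norm_one] at hw
  exact lt_irrefl _ hw

lemma kap_im {w : ℂ} : (kap w).im = (1 - ‖w‖ ^ 2) / ‖1 - w‖ ^ 2 := by
  unfold kap
  rw [← Complex.normSq_eq_norm_sq, ← Complex.normSq_eq_norm_sq, Complex.div_im]
  simp only [Complex.normSq_apply]
  simp
  rw [← sub_div]
  congr 1
  ring

lemma kap_im_pos {w : ℂ} (hw : ‖w‖ < 1) : 0 < (kap w).im := by
  rw [kap_im]
  have h1 := one_sub_pos (norm_nonneg w) hw
  have h2 : 0 < ‖1 - w‖ := norm_pos_iff.2 (one_sub_ne hw)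
  positivity

lemma kap_sub {w v : ℂ} (hw : ‖w‖ < 1) (hv : ‖v‖ < 1) :
    kap w - kap v = 2 * I * (w - v) / ((1 - w) * (1 - v)) := by
  have h1 := one_sub_ne hw
  have h2 := one_sub_ne hv
  unfold kap
  field_simp
  ring

lemma hasDerivAt_kap {w : ℂ} (hw : ‖w‖ < 1) : HasDerivAt kap (2 * I / (1 - w) ^ 2) w := by
  have h1 := one_sub_ne hw
  have h2 : HasDerivAt (fun w : ℂ => I * (1 + w)) (I * 1) w :=
    ((hasDerivAt_id w).const_add 1).const_mul I
  have h3 : HasDerivAt (fun w : ℂ => 1 - w) (-1) w := (hasDerivAt_id w).const_sub 1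
  refine (h2.div h3 h1).congr_deriv ?_
  congr 1
  ring

lemma prod_cmul (c : ℂ) (f : Fin d → ℂ) : ∏ j, (c * f j) = c ^ d * ∏ j, f j := by
  rw [Finset.prod_mul_distrib, Finset.prod_const, Finset.card_univ, Fintype.card_fin]

lemma prod_cmul_erase (c : ℂ) (f : Fin d → ℂ) (j : Fin d) :
    c * ∏ l ∈ univ.erase j, (c * f l) = c ^ d * ∏ l ∈ univ.erase j, f l := by
  rw [Finset.prod_mul_distrib, Finset.prod_const, Finset.card_erase_of_mem (mem_univ j),
    card_univ, Fintype.card_fin, ← mul_assoc, ← pow_succ']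
  have : 0 < d := j.pos
  congr 2
  omega

/-- the identity behind everything, for complex arguments -/
lemma ident {a b x α : Fin d → ℝ}
    (h : gp a b = dp x + ∑ j, Polynomial.C (α j) * qp x j) (ζ : ℂ) :
    ∏ k, ((ζ - a k) ^ 2 + (b k : ℂ) ^ 2) =
      ∏ j, (ζ - x j) ^ 2 + ∑ j, (α j : ℂ) * ∏ l ∈ univ.erase j, (ζ - x l) ^ 2 := by
  have h1 := congrArg (Polynomial.aeval ζ) h
  simp only [gp, dp, qp, map_add, map_sum, map_mul, map_prod, map_pow, map_sub,
    Polynomial.aeval_X, Polynomial.aeval_C] at h1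
  simpa using h1

/-- the homogeneous form -/
lemma ident_hom {a b x α : Fin d → ℝ}
    (h : gp a b = dp x + ∑ j, Polynomial.C (α j) * qp x j) (P Q : ℂ) :
    ∏ k, ((P - a k * Q) ^ 2 + (b k : ℂ) ^ 2 * Q ^ 2) =
      ∏ j, (P - x j * Q) ^ 2 + Q ^ 2 * ∑ j, (α j : ℂ) * ∏ l ∈ univ.erase j, (P - x l * Q) ^ 2 := by
  by_cases hQ : Q = 0
  · subst hQ
    simp
  · have h1 := ident h (P / Q)
    have e1 : ∀ y : ℂ, P - y * Q = Q * (P / Q - y) := by
      intro y
      field_simp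
    have e2 : ∏ k, ((P - a k * Q) ^ 2 + (b k : ℂ) ^ 2 * Q ^ 2) =
        (Q ^ 2) ^ d * ∏ k, ((P / Q - a k) ^ 2 + (b k : ℂ) ^ 2) := by
      rw [← prod_cmul]
      refine Finset.prod_congr rfl fun k _ => ?_
      rw [e1]
      ring
    have e3 : ∏ j, (P - x j * Q) ^ 2 = (Q ^ 2) ^ d * ∏ j, (P / Q - x j) ^ 2 := by
      rw [← prod_cmul]
      refine Finset.prod_congr rfl fun k _ => ?_
      rw [e1]
      ring
    have e4 : ∀ j, Q ^ 2 * ∏ l ∈ univ.erase j, (P - x l * Q) ^ 2 =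
        (Q ^ 2) ^ d * ∏ l ∈ univ.erase j, (P / Q - x l) ^ 2 := by
      intro j
      rw [← prod_cmul_erase]
      congr 1
      refine Finset.prod_congr rfl fun k _ => ?_
      rw [e1]
      ring
    rw [e2, e3, h1, mul_add, Finset.mul_sum, Finset.mul_sum]
    congr 1
    refine Finset.sum_congr rfl fun j _ => ?_
    have := e4 j
    calc (Q ^ 2) ^ d * ((α j : ℂ) * ∏ l ∈ univ.erase j, (P / Q - x l) ^ 2)
        = (α j : ℂ) * ((Q ^ 2) ^ d * ∏ l ∈ univ.erase j, (P / Q - x l) ^ 2) := by ring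
      _ = (α j : ℂ) * (Q ^ 2 * ∏ l ∈ univ.erase j, (P - x l * Q) ^ 2) := by rw [this]
      _ = _ := by ring

/-- the numerator -/
noncomputable def Nu (a b : Fin d → ℝ) (w : ℂ) : ℝ :=
  ‖∏ k, ((I * (1 + w) - a k * (1 - w)) ^ 2 + (b k : ℂ) ^ 2 * (1 - w) ^ 2)‖

/-- the denominator -/
noncomputable def De (x α : Fin d → ℝ) (w : ℂ) : ℝ :=
  ∏ j, ‖I * (1 + w) - x j * (1 - w)‖ ^ 2 +
    ‖1 - w‖ ^ 2 * ∑ j, α j * ∏ l ∈ univ.erase j, ‖I * (1 + w) - x l * (1 - w)‖ ^ 2

lemma circle_sq {w : ℂ} (hw : ‖w‖ = 1) (y : ℝ) :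
    ((‖I * (1 + w) - y * (1 - w)‖ ^ 2 : ℝ) : ℂ) = -w⁻¹ * (I * (1 + w) - y * (1 - w)) ^ 2 := by
  have hw0 : w ≠ 0 := by
    intro h
    rw [h, norm_zero] at hw
    exact zero_ne_one hw
  have hc : conj w = w⁻¹ := by
    rw [Complex.inv_def, Complex.normSq_eq_norm_sq, hw]
    simp
  rw [← Complex.normSq_eq_norm_sq, ← Complex.mul_conj]
  simp only [map_sub, map_mul, map_add, map_one, Complex.conj_I, Complex.conj_ofReal, hc]
  field_simp
  ring

lemma circle_sq' {w : ℂ} (hw : ‖w‖ = 1) :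
    ((‖1 - w‖ ^ 2 : ℝ) : ℂ) = -w⁻¹ * (1 - w) ^ 2 := by
  have hw0 : w ≠ 0 := by
    intro h
    rw [h, norm_zero] at hw
    exact zero_ne_one hw
  have hc : conj w = w⁻¹ := by
    rw [Complex.inv_def, Complex.normSq_eq_norm_sq, hw]
    simp
  rw [← Complex.normSq_eq_norm_sq, ← Complex.mul_conj]
  simp only [map_sub, map_one, hc]
  field_simp
  ring

lemma De_nonneg {x α : Fin d → ℝ} (hα : ∀ j, 0 < α j) (w : ℂ) : 0 ≤ De x α w := by
  unfold De
  have h1 : 0 ≤ ∑ j, α j * ∏ l ∈ univ.erase j, ‖I * (1 + w) - x l * (1 - w)‖ ^ 2 := by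
    refine Finset.sum_nonneg fun j _ => ?_
    have := (hα j).le
    positivity
  positivity

lemma circle_eq {a b x α : Fin d → ℝ} (hα : ∀ j, 0 < α j)
    (h : gp a b = dp x + ∑ j, Polynomial.C (α j) * qp x j) {w : ℂ} (hw : ‖w‖ = 1) :
    Nu a b w = De x α w := by
  have hw0 : w ≠ 0 := by
    intro h
    rw [h, norm_zero] at hw
    exact zero_ne_one hw
  have e : ((De x α w : ℝ) : ℂ) = (-w⁻¹) ^ d *
      ∏ k, ((I * (1 + w) - a k * (1 - w)) ^ 2 + (b k : ℂ) ^ 2 * (1 - w) ^ 2) := by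
    rw [ident_hom h, De]
    rw [Complex.ofReal_add, Complex.ofReal_mul, Complex.ofReal_prod, Complex.ofReal_sum,
      circle_sq' hw]
    have e1 : ∏ j, ((‖I * (1 + w) - x j * (1 - w)‖ ^ 2 : ℝ) : ℂ) =
        (-w⁻¹) ^ d * ∏ j, (I * (1 + w) - x j * (1 - w)) ^ 2 := by
      rw [← prod_cmul]
      refine Finset.prod_congr rfl fun k _ => ?_
      exact circle_sq hw _
    rw [e1, mul_add ((-w⁻¹) ^ d)]
    congr 1
    rw [mul_assoc, ← mul_assoc ((-w⁻¹) ^ d), mul_comm ((-w⁻¹) ^ d) ((1 - w) ^ 2), mul_assoc,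
      mul_left_comm]
    congr 1
    rw [Finset.mul_sum, Finset.mul_sum]
    refine Finset.sum_congr rfl fun j _ => ?_
    rw [Complex.ofReal_mul, Complex.ofReal_prod, mul_left_comm, mul_left_comm ((-w⁻¹) ^ d)]
    congr 1
    rw [← prod_cmul_erase]
    congr 1
    refine Finset.prod_congr rfl fun k _ => ?_
    exact circle_sq hw _
  have h1 := congrArg norm e
  rw [norm_mul, norm_pow, norm_neg, norm_inv, hw, inv_one, one_pow, one_mul,
    Complex.norm_real, Real.norm_eq_abs, abs_of_nonneg (De_nonneg hα w)] at h1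
  rw [Nu, h1]

lemma circle_pos {a b : Fin d → ℝ} (hb : ∀ k, 0 < b k) {w : ℂ} (hw : ‖w‖ = 1) :
    0 < Nu a b w := by
  have hw0 : w ≠ 0 := by
    intro h
    rw [h, norm_zero] at hw
    exact zero_ne_one hw
  unfold Nu
  rw [norm_pos_iff]
  refine Finset.prod_ne_zero_iff.2 fun k _ => ?_
  have e1 := circle_sq hw (a k)
  have e2 := circle_sq' hw
  have e3 : (I * (1 + w) - a k * (1 - w)) ^ 2 + (b k : ℂ) ^ 2 * (1 - w) ^ 2 =
      -w * ((‖I * (1 + w) - a k * (1 - w)‖ ^ 2 + b k ^ 2 * ‖1 - w‖ ^ 2 : ℝ) : ℂ) := by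
    rw [Complex.ofReal_add, Complex.ofReal_mul, e1, e2]
    push_cast
    field_simp
    ring
  rw [e3]
  refine mul_ne_zero (neg_ne_zero.2 hw0) ?_
  rw [Complex.ofReal_ne_zero]
  have hbk := hb k
  by_cases hQ : 1 - w = 0
  · have hw1 : w = 1 := (sub_eq_zero.1 hQ).symm
    subst hw1
    simp
  · have : 0 < ‖1 - w‖ := norm_pos_iff.2 hQ
    positivity

lemma Nu_continuous (a b : Fin d → ℝ) : Continuous (Nu a b) := by
  unfold Nu
  fun_prop

lemma De_continuous (x α : Fin d → ℝ) : Continuous (De x α) := by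
  unfold De
  fun_prop

/-- near the circle the numerator nearly dominates the denominator -/
lemma near_circle {a b x α : Fin d → ℝ} (hb : ∀ k, 0 < b k) (hα : ∀ j, 0 < α j)
    (h : gp a b = dp x + ∑ j, Polynomial.C (α j) * qp x j) {δ : ℝ} (hδ : 0 < δ) :
    ∃ r < 1, ∀ w : ℂ, r < ‖w‖ → ‖w‖ < 1 → (1 - δ) * De x α w ≤ Nu a b w := by
  set φ : ℂ → ℝ := fun w => Nu a b w - (1 - δ) * De x α w with hφ
  have hφc : Continuous φ := (Nu_continuous a b).sub (continuous_const.mul (De_continuous x α))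
  set K : Set ℂ := closedBall 0 1 ∩ {w | φ w ≤ 0} with hK
  have hKc : IsCompact K :=
    (isCompact_closedBall (0:ℂ) 1).inter_right (isClosed_le hφc continuous_const)
  have hK1 : ∀ w ∈ K, ‖w‖ < 1 := by
    intro w hw
    have h1 : ‖w‖ ≤ 1 := by simpa using hw.1
    rcases lt_or_eq_of_le h1 with h2 | h2
    · exact h2
    · exfalso
      have h3 : φ w ≤ 0 := hw.2
      have h4 := circle_eq hα h h2
      have h5 := circle_pos (a := a) hb h2
      rw [hφ] at h3
      simp only at h3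
      rw [h4] at h3 h5
      nlinarith
  rcases K.eq_empty_or_nonempty with he | hne
  · refine ⟨0, one_pos, fun w _ hw1 => ?_⟩
    by_contra hcon
    push Not at hcon
    have : w ∈ K := ⟨by simpa using hw1.le, by rw [hφ]; simp only [Set.mem_ofPred_eq]; linarith⟩
    rw [he] at this
    exact this
  · obtain ⟨w₀, hw₀, hmax⟩ := hKc.exists_isMaxOn hne continuous_norm.continuousOn
    refine ⟨‖w₀‖, hK1 w₀ hw₀, fun w hw hw1 => ?_⟩
    by_contra hcon
    push Not at hcon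
    have hwK : w ∈ K := ⟨by simpa using hw1.le, by rw [hφ]; simp only [Set.mem_ofPred_eq]; linarith⟩
    have := hmax hwK
    simp only [Set.mem_ofPred_eq] at this
    linarith

end Pool.Agent.E8helper80.MB
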