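import Mathlib
import Pool.Agent.E8helper80.MB.Heins1

/-!
# Finite Blaschke products with prescribed critical points
-/

set_option autoImplicit false

open Filter Topology Metric Complex Finset
open scoped ComplexConjugate

namespace Pool.Agent.E8helper80.MB

variable {d : ℕ}

/-- the Nevanlinna function on the half-plane side -/
noncomputable def Phi (x α : Fin d → ℝ) (w : ℂ) : ℂ := kap w - ∑ j, (α j : ℂ) / (kap w - x j)

/-- its derivative with respect to the half-plane variable -/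
noncomputable def Phi' (x α : Fin d → ℝ) (w : ℂ) : ℂ := 1 + ∑ j, (α j : ℂ) / (kap w - x j) ^ 2

lemma kap_sub_ne {w : ℂ} (hw : ‖w‖ < 1) (y : ℝ) : kap w - y ≠ 0 := by
  intro h
  have h1 := congrArg Complex.im h
  have h2 := kap_im_pos hw
  simp at h1
  linarith

lemma hasDerivAt_Phi (x α : Fin d → ℝ) {w : ℂ} (hw : ‖w‖ < 1) :
    HasDerivAt (Phi x α) (2 * I / (1 - w) ^ 2 * Phi' x α w) w := by
  have h1 := hasDerivAt_kap hw
  have h2 : ∀ j, HasDerivAt (fun w => (α j : ℂ) / (kap w - x j))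
      (-((α j : ℂ) * (2 * I / (1 - w) ^ 2)) / (kap w - x j) ^ 2) w := by
    intro j
    have := (h1.sub_const (x j : ℂ)).inv (kap_sub_ne hw (x j))
    have h3 := this.const_mul (α j : ℂ)
    refine (h3.congr_deriv ?_).congr_of_eventuallyEq ?_
    · ring
    · exact Eventually.of_forall fun z => by simp [div_eq_mul_inv]
  have h4 := HasDerivAt.fun_sum (u := univ) fun j _ => h2 j
  refine (h1.sub h4).congr_deriv ?_
  rw [Phi', mul_add, mul_one, Finset.mul_sum, sub_eq_add_neg, ← Finset.sum_neg_distrib]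
  congr 1
  refine Finset.sum_congr rfl fun j _ => ?_
  ring

lemma Phi_im (x α : Fin d → ℝ) {w : ℂ} (_hw : ‖w‖ < 1) :
    (Phi x α w).im = (kap w).im * (1 + ∑ j, α j / ‖kap w - x j‖ ^ 2) := by
  rw [Phi, Complex.sub_im, Complex.im_sum, mul_add, mul_one, Finset.mul_sum, sub_eq_add_neg,
    ← Finset.sum_neg_distrib]
  congr 1
  refine Finset.sum_congr rfl fun j _ => ?_
  rw [div_eq_mul_inv, Complex.im_ofReal_mul, Complex.inv_im, Complex.sub_im, Complex.ofReal_im,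
    sub_zero, Complex.normSq_eq_norm_sq]
  ring

lemma Phi_im_pos {x α : Fin d → ℝ} (hα : ∀ j, 0 < α j) {w : ℂ} (hw : ‖w‖ < 1) :
    0 < (Phi x α w).im := by
  rw [Phi_im x α hw]
  have h1 := kap_im_pos hw
  have h2 : 0 ≤ ∑ j, α j / ‖kap w - x j‖ ^ 2 := by
    refine Finset.sum_nonneg fun j _ => ?_
    have := (hα j).le
    positivity
  positivity

/-- the self-map before normalisation -/
noncomputable def E₀ (x α : Fin d → ℝ) (w : ℂ) : ℂ := (Phi x α w - I) / (Phi x α w + I)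

lemma add_I_ne {z : ℂ} (hz : 0 < z.im) : z + I ≠ 0 := by
  intro h
  have h1 := congrArg Complex.im h
  simp at h1
  linarith

lemma cayley_id {z : ℂ} (hz : 0 < z.im) :
    1 - ‖(z - I) / (z + I)‖ ^ 2 = 4 * z.im / ‖z + I‖ ^ 2 := by
  have h1 : 0 < ‖z + I‖ := norm_pos_iff.2 (add_I_ne hz)
  rw [norm_div, div_pow, eq_div_iff (by positivity), sub_mul, one_mul,
    div_mul_cancel₀ _ (by positivity)]
  simp only [← Complex.normSq_eq_norm_sq, Complex.normSq_apply]
  simp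
  ring

lemma E₀_self {x α : Fin d → ℝ} (hα : ∀ j, 0 < α j) : SelfMap (E₀ x α) := by
  constructor
  · intro w hw
    have hw1 : ‖w‖ < 1 := by simpa using hw
    have h1 := (hasDerivAt_Phi x α hw1)
    have h2 := (h1.sub_const I).div (h1.add_const I) (add_I_ne (Phi_im_pos hα hw1))
    exact h2.differentiableAt.differentiableWithinAt
  · intro w hw
    have hw1 : ‖w‖ < 1 := by simpa using hw
    have h1 := Phi_im_pos (x := x) hα hw1
    have h2 := cayley_id h1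
    have h3 : 0 < ‖Phi x α w + I‖ := norm_pos_iff.2 (add_I_ne h1)
    have h4 : 0 < 1 - ‖E₀ x α w‖ ^ 2 := by
      rw [E₀, h2]
      positivity
    by_contra hc
    push Not at hc
    nlinarith

lemma E₀_deriv {x α : Fin d → ℝ} (hα : ∀ j, 0 < α j) {w : ℂ} (hw : ‖w‖ < 1) :
    deriv (E₀ x α) w = 2 * I * (2 * I / (1 - w) ^ 2 * Phi' x α w) / (Phi x α w + I) ^ 2 := by
  have h1 := (hasDerivAt_Phi x α hw)
  have h2 := (h1.sub_const I).div (h1.add_const I) (add_I_ne (Phi_im_pos hα hw))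
  refine (h2.congr_deriv ?_).deriv
  congr 1
  ring

/-- the zeros of the derivative -/
lemma Phi'_eq {a b x α : Fin d → ℝ}
    (h : gp a b = dp x + ∑ j, Polynomial.C (α j) * qp x j) {w : ℂ} (hw : ‖w‖ < 1) :
    Phi' x α w * ∏ j, (kap w - x j) ^ 2 = ∏ k, ((kap w - a k) ^ 2 + (b k : ℂ) ^ 2) := by
  rw [ident h, Phi', add_mul, one_mul, Finset.sum_mul]
  congr 1
  refine Finset.sum_congr rfl fun j _ => ?_
  rw [← Finset.mul_prod_erase univ _ (mem_univ j)]
  have := kap_sub_ne hw (x j)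
  field_simp

lemma De_eq {x α : Fin d → ℝ} {w : ℂ} (hw : ‖w‖ < 1) :
    De x α w = ‖1 - w‖ ^ (2 * d) * (∏ j, ‖kap w - x j‖ ^ 2) *
      (1 + ∑ j, α j / ‖kap w - x j‖ ^ 2) := by
  have hq := one_sub_ne hw
  have e1 : ∀ y : ℝ, ‖I * (1 + w) - y * (1 - w)‖ ^ 2 = ‖1 - w‖ ^ 2 * ‖kap w - y‖ ^ 2 := by
    intro y
    rw [← mul_pow, ← norm_mul]
    congr 2
    unfold kap
    field_simp
  have e2 : ∏ j, ‖I * (1 + w) - x j * (1 - w)‖ ^ 2 =
      ‖1 - w‖ ^ (2 * d) * ∏ j, ‖kap w - x j‖ ^ 2 := by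
    rw [pow_mul]
    rw [Finset.prod_congr rfl fun j _ => e1 (x j), Finset.prod_mul_distrib, Finset.prod_const,
      Finset.card_univ, Fintype.card_fin]
  rw [De, e2, mul_add (‖1 - w‖ ^ (2 * d) * (∏ j, ‖kap w - x j‖ ^ 2)) 1, mul_one]
  congr 1
  rw [Finset.mul_sum, Finset.mul_sum]
  refine Finset.sum_congr rfl fun j _ => ?_
  rw [Finset.prod_congr rfl fun j _ => e1 (x j), Finset.prod_mul_distrib, Finset.prod_const,
    Finset.card_erase_of_mem (mem_univ j), card_univ, Fintype.card_fin,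
    ← Finset.mul_prod_erase univ _ (mem_univ j)]
  have hk : ‖kap w - x j‖ ≠ 0 := norm_ne_zero_iff.2 (kap_sub_ne hw (x j))
  have hd : 2 * d = 2 * (d - 1) + 2 := by
    have : 0 < d := j.pos
    omega
  rw [hd, pow_add, pow_mul]
  field_simp

lemma Nu_eq {a b x α : Fin d → ℝ}
    (h : gp a b = dp x + ∑ j, Polynomial.C (α j) * qp x j) {w : ℂ} (hw : ‖w‖ < 1) :
    Nu a b w = ‖1 - w‖ ^ (2 * d) * (∏ j, ‖kap w - x j‖ ^ 2) * ‖Phi' x α w‖ := by
  have hq := one_sub_ne hw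
  have e1 : ∏ k, ((I * (1 + w) - a k * (1 - w)) ^ 2 + (b k : ℂ) ^ 2 * (1 - w) ^ 2) =
      ((1 - w) ^ 2) ^ d * ∏ k, ((kap w - a k) ^ 2 + (b k : ℂ) ^ 2) := by
    rw [← prod_cmul]
    refine Finset.prod_congr rfl fun k _ => ?_
    unfold kap
    field_simp
  rw [Nu, e1, ← Phi'_eq h hw, norm_mul, norm_mul, norm_pow, norm_pow, pow_mul, norm_prod]
  simp only [norm_pow]
  ring

lemma E₀_bdry {a b x α : Fin d → ℝ} (hb : ∀ k, 0 < b k) (hα : ∀ j, 0 < α j)
    (h : gp a b = dp x + ∑ j, Polynomial.C (α j) * qp x j) (δ : ℝ) (hδ : 0 < δ) (_ : δ < 1) :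
    ∃ r < 1, ∀ z : ℂ, r < ‖z‖ → ‖z‖ < 1 →
      (1 - δ) * (1 - ‖E₀ x α z‖ ^ 2) ≤ ‖deriv (E₀ x α) z‖ * (1 - ‖z‖ ^ 2) := by
  obtain ⟨r, hr, hb'⟩ := near_circle hb hα h hδ
  refine ⟨r, hr, fun w hw hw1 => ?_⟩
  have h1 := hb' w hw hw1
  rw [De_eq hw1, Nu_eq h hw1] at h1
  have hq := one_sub_ne hw1
  have hq' : 0 < ‖1 - w‖ := norm_pos_iff.2 hq
  have hP : 0 < ∏ j, ‖kap w - x j‖ ^ 2 :=
    Finset.prod_pos fun j _ => pow_pos (norm_pos_iff.2 (kap_sub_ne hw1 (x j))) 2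
  have h2 : (1 - δ) * (1 + ∑ j, α j / ‖kap w - x j‖ ^ 2) ≤ ‖Phi' x α w‖ := by
    have h3 : 0 < ‖1 - w‖ ^ (2 * d) * (∏ j, ‖kap w - x j‖ ^ 2) := by positivity
    by_contra hc
    push Not at hc
    have := mul_lt_mul_of_pos_left hc h3
    nlinarith
  have hPi := Phi_im_pos (x := x) hα hw1
  have h5 : 0 < ‖Phi x α w + I‖ := norm_pos_iff.2 (add_I_ne hPi)
  rw [E₀_deriv hα hw1, E₀, cayley_id hPi, Phi_im x α hw1, kap_im]
  have e6 : ‖2 * I * (2 * I / (1 - w) ^ 2 * Phi' x α w) / (Phi x α w + I) ^ 2‖ =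
      4 / ‖1 - w‖ ^ 2 * ‖Phi' x α w‖ / ‖Phi x α w + I‖ ^ 2 := by
    simp only [norm_mul, norm_div, norm_pow, Complex.norm_I, Complex.norm_ofNat]
    ring
  rw [e6]
  have h7 := one_sub_pos (norm_nonneg w) hw1
  have e8 : (1 - δ) * (4 * ((1 - ‖w‖ ^ 2) / ‖1 - w‖ ^ 2 * (1 + ∑ j, α j / ‖kap w - x j‖ ^ 2)) /
      ‖Phi x α w + I‖ ^ 2) = (4 * (1 - ‖w‖ ^ 2) / ‖1 - w‖ ^ 2 / ‖Phi x α w + I‖ ^ 2) *
      ((1 - δ) * (1 + ∑ j, α j / ‖kap w - x j‖ ^ 2)) := by ring
  have e9 : 4 / ‖1 - w‖ ^ 2 * ‖Phi' x α w‖ / ‖Phi x α w + I‖ ^ 2 * (1 - ‖w‖ ^ 2) =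
      (4 * (1 - ‖w‖ ^ 2) / ‖1 - w‖ ^ 2 / ‖Phi x α w + I‖ ^ 2) * ‖Phi' x α w‖ := by ring
  rw [e8, e9]
  apply mul_le_mul_of_nonneg_left h2
  positivity

/-- **Heins' theorem** (existence of finite Blaschke products with prescribed critical points, in
the form needed here). -/
theorem heins (p : Fin d → ℂ) (hp : ∀ k, ‖p k‖ < 1) :
    ∃ E U : ℂ → ℂ, Barrier E ∧ E 0 = 0 ∧ DifferentiableOn ℂ U (ball 0 1) ∧
      (∀ z ∈ ball (0:ℂ) 1, U z ≠ 0) ∧ ∀ z ∈ ball (0:ℂ) 1, deriv E z = U z * ∏ k, (z - p k) := by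
  obtain ⟨x, α, hα, -, h⟩ := partial_fractions (a := fun k => (kap (p k)).re)
    (b := fun k => (kap (p k)).im) (fun k => kap_im_pos (hp k))
  have hS := E₀_self (x := x) hα
  have h0 : (0:ℂ) ∈ ball (0:ℂ) 1 := by simp
  have ha : ‖E₀ x α 0‖ < 1 := hS.maps 0 h0
  set a := E₀ x α 0 with hadef
  have hder : ∀ z ∈ ball (0:ℂ) 1, HasDerivAt (fun z => mob a (E₀ x α z))
      ((1 - ‖a‖ ^ 2 : ℝ) / (1 - conj a * E₀ x α z) ^ 2 * deriv (E₀ x α) z) z := by
    intro z hz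
    have h1 := (hS.differentiableAt hz).hasDerivAt
    have h2 : HasDerivAt (fun z => E₀ x α z - a) (deriv (E₀ x α) z) z := h1.sub_const _
    have h3 : HasDerivAt (fun z => 1 - conj a * E₀ x α z) (-(conj a * deriv (E₀ x α) z)) z :=
      (h1.const_mul (conj a)).const_sub 1
    have h4 := h2.div h3 (den_ne ha (hS.maps z hz))
    refine h4.congr_deriv ?_
    have h5 : ((1 - ‖a‖ ^ 2 : ℝ) : ℂ) = 1 - conj a * a := by
      rw [mul_comm, Complex.mul_conj, Complex.normSq_eq_norm_sq]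
      push_cast
      ring
    rw [h5]
    ring
  refine ⟨fun z => mob a (E₀ x α z),
    fun z => (1 - ‖a‖ ^ 2 : ℝ) / (1 - conj a * E₀ x α z) ^ 2 *
      (-4 / (1 - z) ^ 2 / (∏ j, (kap z - x j) ^ 2) / (Phi x α z + I) ^ 2 *
      ∏ k, (2 * I / ((1 - z) * (1 - p k)) * (kap z - conj (kap (p k))))), ?_, ?_, ?_, ?_, ?_⟩
  · refine ⟨(mob_selfMap ha).comp hS, fun δ hδ hδ1 => ?_⟩
    obtain ⟨r, hr, hb⟩ := E₀_bdry (fun k => kap_im_pos (hp k)) hα h δ hδ hδ1
    refine ⟨r, hr, fun z hz hz1 => ?_⟩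
    have hzb : z ∈ ball (0:ℂ) 1 := by simpa using hz1
    have h1 := hb z hz hz1
    rw [(hder z hzb).deriv, norm_mul, norm_div, Complex.norm_real, Real.norm_eq_abs,
      abs_of_pos (one_sub_pos (norm_nonneg a) ha)]
    have h2 := mob_id ha (hS.maps z hzb)
    rw [h2] at h1
    have h3 : 0 < ‖(1 - conj a * E₀ x α z) ^ 2‖ :=
      norm_pos_iff.2 (pow_ne_zero 2 (den_ne ha (hS.maps z hzb)))
    have h4 := one_sub_pos (norm_nonneg a) ha
    have h5 : (1 - δ) * (1 - ‖mob a (E₀ x α z)‖ ^ 2) =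
        (1 - ‖a‖ ^ 2) / ‖(1 - conj a * E₀ x α z) ^ 2‖ * ((1 - δ) *
        ((1 - ‖mob a (E₀ x α z)‖ ^ 2) * ‖(1 - conj a * E₀ x α z) ^ 2‖ / (1 - ‖a‖ ^ 2))) := by
      field_simp
    rw [h5, mul_assoc ((1 - ‖a‖ ^ 2) / ‖(1 - conj a * E₀ x α z) ^ 2‖)]
    apply mul_le_mul_of_nonneg_left h1
    positivity
  · simp only
    rw [← hadef, mob_self]
  · have hk : DifferentiableOn ℂ kap (ball 0 1) := fun z hz =>
      (hasDerivAt_kap (by simpa using hz)).differentiableAt.differentiableWithinAt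
    have hPh : DifferentiableOn ℂ (Phi x α) (ball 0 1) := fun z hz =>
      (hasDerivAt_Phi x α (by simpa using hz)).differentiableAt.differentiableWithinAt
    have h1z : DifferentiableOn ℂ (fun z : ℂ => 1 - z) (ball 0 1) :=
      (differentiableOn_const _).sub differentiableOn_id
    refine DifferentiableOn.mul ?_ (DifferentiableOn.mul ?_ ?_)
    · refine DifferentiableOn.div (differentiableOn_const _) ?_ ?_
      · exact ((hS.diff.const_mul _).const_sub 1).pow 2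
      · intro z hz
        exact pow_ne_zero 2 (den_ne ha (hS.maps z hz))
    · refine DifferentiableOn.div (DifferentiableOn.div (DifferentiableOn.div
        (differentiableOn_const _) (h1z.pow 2) ?_) ?_ ?_) ((hPh.add_const I).pow 2) ?_
      · intro z hz
        exact pow_ne_zero 2 (one_sub_ne (by simpa using hz))
      · exact DifferentiableOn.fun_finsetProd fun j _ => (hk.sub_const _).pow 2
      · intro z hz
        exact Finset.prod_ne_zero_iff.2 fun j _ => pow_ne_zero 2 (kap_sub_ne (by simpa using hz) _)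
      · intro z hz
        exact pow_ne_zero 2 (add_I_ne (Phi_im_pos hα (by simpa using hz)))
    · refine DifferentiableOn.fun_finsetProd fun j _ => DifferentiableOn.mul ?_ (hk.sub_const _)
      refine DifferentiableOn.div (differentiableOn_const _) (h1z.mul_const _) ?_
      intro z hz
      exact mul_ne_zero (one_sub_ne (by simpa using hz)) (one_sub_ne (hp j))
  · intro z hz
    have hz1 : ‖z‖ < 1 := by simpa using hz
    have hq := one_sub_ne hz1
    refine mul_ne_zero (div_ne_zero ?_ (pow_ne_zero 2 (den_ne ha (hS.maps z hz))))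
      (mul_ne_zero (div_ne_zero (div_ne_zero (div_ne_zero (by norm_num) (pow_ne_zero 2 hq)) ?_) ?_)
        ?_)
    · rw [Complex.ofReal_ne_zero]
      exact (one_sub_pos (norm_nonneg a) ha).ne'
    · exact Finset.prod_ne_zero_iff.2 fun j _ => pow_ne_zero 2 (kap_sub_ne hz1 _)
    · exact pow_ne_zero 2 (add_I_ne (Phi_im_pos hα hz1))
    · refine Finset.prod_ne_zero_iff.2 fun k _ => mul_ne_zero (div_ne_zero ?_ ?_) ?_
      · exact mul_ne_zero (by norm_num) Complex.I_ne_zero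
      · exact mul_ne_zero hq (one_sub_ne (hp k))
      · intro h
        have h1 := congrArg Complex.im h
        have h2 := kap_im_pos hz1
        have h3 := kap_im_pos (hp k)
        simp at h1
        linarith
  · intro z hz
    have hz1 : ‖z‖ < 1 := by simpa using hz
    have hq := one_sub_ne hz1
    rw [(hder z hz).deriv, E₀_deriv hα hz1]
    have h1 := Phi'_eq h hz1
    have hP : ∏ j, (kap z - x j) ^ 2 ≠ 0 :=
      Finset.prod_ne_zero_iff.2 fun j _ => pow_ne_zero 2 (kap_sub_ne hz1 _)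
    have h2 : Phi' x α z = (∏ k, ((kap z - (kap (p k)).re) ^ 2 + ((kap (p k)).im : ℂ) ^ 2)) /
        ∏ j, (kap z - x j) ^ 2 := by
      rw [eq_div_iff hP]
      exact h1
    have h3 : ∏ k, ((kap z - (kap (p k)).re) ^ 2 + ((kap (p k)).im : ℂ) ^ 2) =
        (∏ k, (2 * I / ((1 - z) * (1 - p k)) * (kap z - conj (kap (p k))))) * ∏ k, (z - p k) := by
      rw [← Finset.prod_mul_distrib]
      refine Finset.prod_congr rfl fun k _ => ?_
      have e1 : (kap z - (kap (p k)).re) ^ 2 + ((kap (p k)).im : ℂ) ^ 2 =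
          (kap z - kap (p k)) * (kap z - conj (kap (p k))) := by
        have e2 : kap (p k) = (kap (p k)).re + (kap (p k)).im * I :=
          (Complex.re_add_im _).symm
        have e3 : conj (kap (p k)) = (kap (p k)).re - (kap (p k)).im * I := by
          apply Complex.ext <;> simp
        rw [e3]
        nth_rewrite 3 [e2]
        linear_combination ((kap (p k)).im : ℂ) ^ 2 * Complex.I_sq
      rw [e1, kap_sub hz1 (hp k)]
      ring
    rw [h2, h3]
    have hI : (2 : ℂ) * I * (2 * I) = -4 := by linear_combination 4 * Complex.I_sq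
    linear_combination (((1 - ‖a‖ ^ 2 : ℝ) : ℂ) / (1 - conj a * E₀ x α z) ^ 2 *
      (1 / (1 - z) ^ 2 * (((∏ k, (2 * I / ((1 - z) * (1 - p k)) *
      (kap z - conj (kap (p k))))) * ∏ k, (z - p k)) / ∏ j, (kap z - x j) ^ 2)) /
      (Phi x α z + I) ^ 2) * hI

end Pool.Agent.E8helper80.MB
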