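import Mathlib

/-!
# Factorisation of zeros and division
-/

set_option autoImplicit false

open Filter Topology Metric Complex Set

namespace Pool.Agent.E8helper80.MB

/-- one-point factorisation -/
lemma factor_one {f : ℂ → ℂ} (hf : DifferentiableOn ℂ f (ball 0 1)) {a : ℂ}
    (ha : a ∈ ball (0:ℂ) 1) (n : ℕ) (hn : (n : ℕ∞) ≤ analyticOrderAt f a) :
    ∃ g : ℂ → ℂ, DifferentiableOn ℂ g (ball 0 1) ∧ ∀ z ∈ ball (0:ℂ) 1, f z = (z - a) ^ n * g z := by
  have hfa : AnalyticAt ℂ f a := hf.analyticAt (isOpen_ball.mem_nhds ha)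
  obtain ⟨g₀, hg₀, he⟩ := (natCast_le_analyticOrderAt hfa).1 hn
  classical
  refine ⟨fun z => if z = a then g₀ a else f z / (z - a) ^ n, ?_, ?_⟩
  · intro z hz
    by_cases h : z = a
    · subst h
      have h1 : (fun w => if w = z then g₀ z else f w / (w - z) ^ n) =ᶠ[𝓝 z] g₀ := by
        filter_upwards [he] with w hw
        by_cases hwz : w = z
        · rw [if_pos hwz, hwz]
        · rw [if_neg hwz, hw, smul_eq_mul, mul_div_cancel_left₀]
          exact pow_ne_zero _ (sub_ne_zero.2 hwz)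
      exact (hg₀.differentiableAt.congr_of_eventuallyEq h1).differentiableWithinAt
    · have h1 : (fun w => if w = a then g₀ a else f w / (w - a) ^ n) =ᶠ[𝓝 z]
          fun w => f w / (w - a) ^ n := by
        filter_upwards [isOpen_ne.mem_nhds h] with w hw
        rw [if_neg hw]
      have h2 : DifferentiableAt ℂ (fun w => f w / (w - a) ^ n) z := by
        refine (hf.differentiableAt (isOpen_ball.mem_nhds hz)).div ?_ ?_
        · fun_prop
        · exact pow_ne_zero _ (sub_ne_zero.2 h)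
      exact (h2.congr_of_eventuallyEq h1).differentiableWithinAt
  · intro z hz
    by_cases h : z = a
    · subst h
      simp only [if_true]
      have := he.self_of_nhds
      rw [this, smul_eq_mul]
    · simp only [if_neg h]
      rw [mul_div_cancel₀]
      exact pow_ne_zero _ (sub_ne_zero.2 h)

/-- factorisation along a finite set -/
lemma factor_finset (Z : Finset ℂ) : ∀ {f : ℂ → ℂ}, DifferentiableOn ℂ f (ball 0 1) →
    (∀ z ∈ ball (0:ℂ) 1, analyticOrderAt f z ≠ ⊤) → (∀ z ∈ Z, z ∈ ball (0:ℂ) 1) →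
    ∃ (S : List ℂ) (Q : ℂ → ℂ), (∀ s ∈ S, s ∈ ball (0:ℂ) 1) ∧ DifferentiableOn ℂ Q (ball 0 1) ∧
      (∀ z ∈ ball (0:ℂ) 1, f z = (S.map fun s => z - s).prod * Q z) ∧ ∀ z ∈ Z, Q z ≠ 0 := by
  classical
  induction Z using Finset.induction_on with
  | empty =>
    intro f hf _ _
    exact ⟨[], f, by simp, hf, by simp, by simp⟩
  | insert a Z haZ IH =>
    intro f hf hord hZ
    have ha : a ∈ ball (0:ℂ) 1 := hZ a (Finset.mem_insert_self _ _)
    have hfa : AnalyticAt ℂ f a := hf.analyticAt (isOpen_ball.mem_nhds ha)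
    obtain ⟨n, hn⟩ := ENat.ne_top_iff_exists.1 (hord a ha)
    obtain ⟨g, hg, hfg⟩ := factor_one hf ha n hn.le
    have hga : ∀ z ∈ ball (0:ℂ) 1, AnalyticAt ℂ g z := fun z hz =>
      hg.analyticAt (isOpen_ball.mem_nhds hz)
    have hpow : ∀ z : ℂ, AnalyticAt ℂ (fun w : ℂ => (w - a) ^ n) z := fun z => by fun_prop
    have hmul : ∀ z ∈ ball (0:ℂ) 1, analyticOrderAt f z =
        analyticOrderAt (fun w : ℂ => (w - a) ^ n) z + analyticOrderAt g z := by
      intro z hz
      rw [← analyticOrderAt_mul (hpow z) (hga z hz)]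
      apply analyticOrderAt_congr
      filter_upwards [isOpen_ball.mem_nhds hz] with w hw
      exact hfg w hw
    have hgord : ∀ z ∈ ball (0:ℂ) 1, analyticOrderAt g z ≠ ⊤ := by
      intro z hz h
      have := hmul z hz
      rw [h, add_top] at this
      exact hord z hz this
    obtain ⟨S, Q, hS, hQ, hSQ, hQZ⟩ := IH hg hgord
      (fun z hz => hZ z (Finset.mem_insert_of_mem hz))
    refine ⟨List.replicate n a ++ S, Q, ?_, hQ, ?_, ?_⟩
    · intro s hs
      rcases List.mem_append.1 hs with h | h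
      · rw [List.eq_of_mem_replicate h]; exact ha
      · exact hS s h
    · intro z hz
      rw [hfg z hz, hSQ z hz, List.map_append, List.prod_append, List.map_replicate,
        List.prod_replicate]
      ring
    · intro z hz
      rcases Finset.mem_insert.1 hz with h | h
      · subst h
        have h1 := hmul z ha
        have h2 : analyticOrderAt (fun w : ℂ => (w - z) ^ n) z = n := by
          rw [(hpow z).analyticOrderAt_eq_natCast]
          exact ⟨fun _ => 1, analyticAt_const, one_ne_zero, by simp⟩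
        have h3 : analyticOrderAt g z = 0 := by
          rw [← hn, h2] at h1
          have h4 : (n : ℕ∞) + 0 = n + analyticOrderAt g z := by rw [add_zero]; exact h1
          exact (ENat.add_right_injective_of_ne_top (ENat.coe_ne_top n) h4).symm
        rw [(hga z ha).analyticOrderAt_eq_zero, hSQ z ha] at h3
        exact right_ne_zero_of_mul h3
      · exact hQZ z h

/-- factorisation on a compact disc -/
theorem factor_disc {f : ℂ → ℂ} (hf : DifferentiableOn ℂ f (ball 0 1))
    (hord : ∀ z ∈ ball (0:ℂ) 1, analyticOrderAt f z ≠ ⊤) {r : ℝ} (hr : r < 1) :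
    ∃ (d : ℕ) (p : Fin d → ℂ) (Q : ℂ → ℂ), (∀ k, ‖p k‖ < 1) ∧
      DifferentiableOn ℂ Q (ball 0 1) ∧
      (∀ z ∈ ball (0:ℂ) 1, f z = (∏ k, (z - p k)) * Q z) ∧ ∀ z ∈ closedBall (0:ℂ) r, Q z ≠ 0 := by
  have hsub : closedBall (0:ℂ) r ⊆ ball 0 1 := closedBall_subset_ball hr
  have hfin : (closedBall (0:ℂ) r ∩ {z | f z = 0}).Finite := by
    by_contra hinf
    obtain ⟨z, hz, hacc⟩ := (Set.Infinite.exists_accPt_of_subset_isCompact
      hinf (isCompact_closedBall (0:ℂ) r) inter_subset_left)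
    have hzb := hsub hz
    have hfz : AnalyticAt ℂ f z := hf.analyticAt (isOpen_ball.mem_nhds hzb)
    rcases hfz.eventually_eq_zero_or_eventually_ne_zero with h | h
    · exact hord z hzb (analyticOrderAt_eq_top.2 h)
    · rw [accPt_iff_frequently_nhdsNE] at hacc
      exact hacc (h.mono fun y hy hy' => hy hy'.2)
  obtain ⟨S, Q, hS, hQ, hSQ, hQZ⟩ := factor_finset hfin.toFinset hf hord (by
    intro z hz
    exact hsub ((hfin.mem_toFinset.1 hz).1))
  refine ⟨S.length, S.get, Q, ?_, hQ, ?_, ?_⟩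
  · intro k
    simpa using hS _ (S.get_mem k)
  · intro z hz
    rw [hSQ z hz]
    congr 1
    rw [← List.prod_ofFn]
    congr 1
    conv_lhs => rw [← List.ofFn_get S]
    rw [List.map_ofFn]
    rfl
  · intro z hz
    by_cases h : f z = 0
    · exact hQZ z (hfin.mem_toFinset.2 ⟨hz, h⟩)
    · rw [hSQ z (hsub hz)] at h
      exact right_ne_zero_of_mul h

/-- division -/
theorem division {f g : ℂ → ℂ} (hf : DifferentiableOn ℂ f (ball 0 1))
    (hg : DifferentiableOn ℂ g (ball 0 1))
    (hord : ∀ z ∈ ball (0:ℂ) 1, analyticOrderAt g z ≠ ⊤)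
    (hle : ∀ z ∈ ball (0:ℂ) 1, analyticOrderAt g z ≤ analyticOrderAt f z) :
    ∃ H : ℂ → ℂ, DifferentiableOn ℂ H (ball 0 1) ∧ ∀ z ∈ ball (0:ℂ) 1, f z = H z * g z := by
  have hloc : ∀ z : ℂ, ∃ h : ℂ → ℂ, z ∈ ball (0:ℂ) 1 → AnalyticAt ℂ h z ∧
      ∀ᶠ w in 𝓝 z, f w = h w * g w := by
    intro z
    by_cases hz : z ∈ ball (0:ℂ) 1
    · have hfz : AnalyticAt ℂ f z := hf.analyticAt (isOpen_ball.mem_nhds hz)
      have hgz : AnalyticAt ℂ g z := hg.analyticAt (isOpen_ball.mem_nhds hz)
      obtain ⟨n, hn⟩ := ENat.ne_top_iff_exists.1 (hord z hz)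
      obtain ⟨g₁, hg₁, hg₁0, hge⟩ := (hgz.analyticOrderAt_eq_natCast).1 hn.symm
      obtain ⟨f₁, hf₁, hfe⟩ := (natCast_le_analyticOrderAt hfz).1 (hn.le.trans (hle z hz))
      refine ⟨fun w => f₁ w / g₁ w, fun _ => ⟨hf₁.div hg₁ hg₁0, ?_⟩⟩
      filter_upwards [hge, hfe, hg₁.continuousAt.eventually_ne hg₁0] with w h1 h2 h3
      rw [h1, h2, smul_eq_mul, smul_eq_mul]
      field_simp
    · exact ⟨0, fun h => absurd h hz⟩
  choose h hh using hloc
  have key : ∀ z ∈ ball (0:ℂ) 1, (fun w => h w w) =ᶠ[𝓝 z] h z := by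
    intro z hz
    obtain ⟨ha, he⟩ := hh z hz
    filter_upwards [isOpen_ball.mem_nhds hz, he.eventually_nhds, ha.eventually_analyticAt] with
      w hw hew haw
    obtain ⟨ha', he'⟩ := hh w hw
    -- `h z` and `h w` agree near `w`
    have hgw : AnalyticAt ℂ g w := hg.analyticAt (isOpen_ball.mem_nhds hw)
    have hne : ∀ᶠ v in 𝓝[≠] w, g v ≠ 0 := by
      rcases hgw.eventually_eq_zero_or_eventually_ne_zero with h0 | h0
      · exact absurd (analyticOrderAt_eq_top.2 h0) (hord w hw)
      · exact h0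
    have heq : ∀ᶠ v in 𝓝[≠] w, h w v = h z v := by
      filter_upwards [hne, he'.filter_mono nhdsWithin_le_nhds,
        hew.filter_mono nhdsWithin_le_nhds] with v h1 h2 h3
      rw [h2] at h3
      exact mul_right_cancel₀ h1 h3
    have h1 : Tendsto (h w) (𝓝[≠] w) (𝓝 (h w w)) :=
      ha'.continuousAt.tendsto.mono_left nhdsWithin_le_nhds
    have h2 : Tendsto (h z) (𝓝[≠] w) (𝓝 (h z w)) :=
      haw.continuousAt.tendsto.mono_left nhdsWithin_le_nhds
    exact tendsto_nhds_unique (h1.congr' heq) h2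
  refine ⟨fun w => h w w, ?_, ?_⟩
  · intro z hz
    exact ((hh z hz).1.differentiableAt.congr_of_eventuallyEq (key z hz)).differentiableWithinAt
  · intro z hz
    exact (hh z hz).2.self_of_nhds

end Pool.Agent.E8helper80.MB
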