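import Mathlib
import Pool.Agent.E8helper80.MB.Comp
import Pool.Agent.E8helper80.MB.Heins
import Pool.Agent.E8helper80.MB.Zeros
import Pool.Agent.Helper114.MontelSol

/-!
# The extremal property passes to the inner factor
-/

set_option autoImplicit false

open Filter Topology Metric Complex Set
open scoped ComplexConjugate

namespace Pool.Agent.E8helper80.MB

/-- the derivative vanishes to order at least `m z` at each point of the disc -/
def Van (m : ℂ → ℕ) (f : ℂ → ℂ) : Prop :=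
  ∀ z ∈ ball (0:ℂ) 1, (m z : ℕ∞) ≤ analyticOrderAt (deriv f) z

/-- the coefficient -/
noncomputable def coef (m : ℂ → ℕ) (f : ℂ → ℂ) : ℂ := iteratedDeriv (m 0 + 1) f 0

lemma zero_mem : (0:ℂ) ∈ ball (0:ℂ) 1 := by simp

lemma deriv_analyticAt {f : ℂ → ℂ} (hf : DifferentiableOn ℂ f (ball 0 1)) {z : ℂ}
    (hz : z ∈ ball (0:ℂ) 1) : AnalyticAt ℂ (deriv f) z :=
  (hf.analyticAt (isOpen_ball.mem_nhds hz)).deriv

lemma coef_eq (m : ℂ → ℕ) (f : ℂ → ℂ) : coef m f = iteratedDeriv (m 0) (deriv f) 0 := by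
  rw [coef, iteratedDeriv_succ']

/-- Leibniz at the first non-vanishing order -/
lemma leibniz {G g : ℂ → ℂ} {z : ℂ} (hG : AnalyticAt ℂ G z) (hg : AnalyticAt ℂ g z) {N : ℕ}
    (hN : (N : ℕ∞) ≤ analyticOrderAt g z) :
    iteratedDeriv N (fun w => G w * g w) z = G z * iteratedDeriv N g z := by
  have h0 := (natCast_le_analyticOrderAt_iff_iteratedDeriv_eq_zero hg).1 hN
  rw [iteratedDeriv_fun_mul hG.contDiffAt hg.contDiffAt, Finset.sum_eq_single 0]
  · simp
  · intro i hi hi0
    rw [h0 (N - i)]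
    · ring
    · have := Finset.mem_range.1 hi
      omega
  · intro h
    simp at h

/-- order of a product -/
lemma order_mul_ge {G g : ℂ → ℂ} {z : ℂ} (hG : AnalyticAt ℂ G z) (hg : AnalyticAt ℂ g z) :
    analyticOrderAt g z ≤ analyticOrderAt (fun w => G w * g w) z := by
  have : analyticOrderAt (fun w => G w * g w) z = analyticOrderAt G z + analyticOrderAt g z :=
    analyticOrderAt_mul hG hg
  rw [this]
  exact le_add_self

/-- from a multiplicative relation of the derivatives -/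
lemma van_of_mul {m : ℂ → ℕ} {f g G : ℂ → ℂ} (hg : DifferentiableOn ℂ g (ball 0 1))
    (hG : DifferentiableOn ℂ G (ball 0 1))
    (h : ∀ z ∈ ball (0:ℂ) 1, deriv f z = G z * deriv g z) (hv : Van m g) : Van m f := by
  intro z hz
  have h1 : deriv f =ᶠ[𝓝 z] fun w => G w * deriv g w := by
    filter_upwards [isOpen_ball.mem_nhds hz] with w hw
    exact h w hw
  rw [analyticOrderAt_congr h1]
  exact (hv z hz).trans (order_mul_ge (hG.analyticAt (isOpen_ball.mem_nhds hz))
    (deriv_analyticAt hg hz))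

lemma coef_of_mul {m : ℂ → ℕ} {f g G : ℂ → ℂ} (hg : DifferentiableOn ℂ g (ball 0 1))
    (hG : DifferentiableOn ℂ G (ball 0 1))
    (h : ∀ z ∈ ball (0:ℂ) 1, deriv f z = G z * deriv g z)
    (hv : (m 0 : ℕ∞) ≤ analyticOrderAt (deriv g) 0) : coef m f = G 0 * coef m g := by
  have h1 : deriv f =ᶠ[𝓝 0] fun w => G w * deriv g w := by
    filter_upwards [isOpen_ball.mem_nhds zero_mem] with w hw
    exact h w hw
  rw [coef_eq, coef_eq, h1.iteratedDeriv_eq]
  exact leibniz (hG.analyticAt (isOpen_ball.mem_nhds zero_mem)) (deriv_analyticAt hg zero_mem) hv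

lemma deriv_comp' {h f : ℂ → ℂ} (hh : DifferentiableOn ℂ h (ball 0 1)) (hf : SelfMap f) :
    ∀ z ∈ ball (0:ℂ) 1, deriv (fun w => h (f w)) z = deriv h (f z) * deriv f z := by
  intro z hz
  have h1 : f z ∈ ball (0:ℂ) 1 := by simpa using hf.maps z hz
  exact ((hh.differentiableAt (isOpen_ball.mem_nhds h1)).hasDerivAt.comp z
    (hf.differentiableAt hz).hasDerivAt).deriv

lemma deriv_comp_diff {h f : ℂ → ℂ} (hh : DifferentiableOn ℂ h (ball 0 1)) (hf : SelfMap f) :
    DifferentiableOn ℂ (fun w => deriv h (f w)) (ball 0 1) :=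
  (hh.deriv isOpen_ball).comp hf.diff (fun z hz => by simpa using hf.maps z hz)

/-- a bounded-by-one function with `‖f 0‖ < 1` is a self-map -/
lemma selfMap_of_le {f : ℂ → ℂ} (hf : DifferentiableOn ℂ f (ball 0 1))
    (hb : ∀ z ∈ ball (0:ℂ) 1, ‖f z‖ ≤ 1) {z₁ : ℂ} (hz₁ : z₁ ∈ ball (0:ℂ) 1) (h0 : ‖f z₁‖ < 1) :
    SelfMap f := by
  refine ⟨hf, fun z hz => ?_⟩
  rcases lt_or_eq_of_le (hb z hz) with h | h
  · exact h
  · exfalso
    have hmax : IsMaxOn (norm ∘ f) (ball (0:ℂ) 1) z := by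
      intro w hw
      simp only [Function.comp, Set.mem_ofPred_eq, h]
      exact hb w hw
    have := Complex.norm_eqOn_of_isPreconnected_of_isMaxOn
      (convex_ball (0:ℂ) 1).isPreconnected isOpen_ball hf hz hmax hz₁
    simp only [Function.comp, Function.const] at this
    rw [this, h] at h0
    exact lt_irrefl _ h0

/-- all iterated derivatives are holomorphic -/
lemma iter_diff {f : ℂ → ℂ} (hf : DifferentiableOn ℂ f (ball 0 1)) (k : ℕ) :
    DifferentiableOn ℂ (iteratedDeriv k f) (ball 0 1) := by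
  induction k with
  | zero => rw [iteratedDeriv_zero]; exact hf
  | succ k ih => rw [iteratedDeriv_succ]; exact ih.deriv isOpen_ball

lemma iter_tendsto {F : ℕ → ℂ → ℂ} {Φ : ℂ → ℂ} {l : Filter ℕ} [l.NeBot]
    (hF : ∀ n, DifferentiableOn ℂ (F n) (ball 0 1))
    (hl : TendstoLocallyUniformlyOn F Φ l (ball 0 1)) (k : ℕ) :
    TendstoLocallyUniformlyOn (fun n => iteratedDeriv k (F n)) (iteratedDeriv k Φ) l
      (ball 0 1) := by
  induction k with
  | zero => simpa [iteratedDeriv_zero] using hl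
  | succ k ih =>
    have := ih.deriv (Eventually.of_forall fun n => iter_diff (hF n) k) isOpen_ball
    simp only [iteratedDeriv_succ]
    exact this

/-- the extremal property, in invariant form -/
structure Core (m : ℂ → ℕ) (A : ℂ → ℂ) : Prop where
  self : SelfMap A
  van : Van m A
  ne : coef m A ≠ 0
  ext : ∀ f : ℂ → ℂ, SelfMap f → Van m f →
    ‖coef m f‖ * (1 - ‖A 0‖ ^ 2) ≤ (1 - ‖f 0‖ ^ 2) * ‖coef m A‖

/-- a nonzero coefficient makes all orders finite -/
lemma order_ne_top {m : ℂ → ℕ} {A : ℂ → ℂ} (hA : DifferentiableOn ℂ A (ball 0 1))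
    (hne : coef m A ≠ 0) : ∀ z ∈ ball (0:ℂ) 1, analyticOrderAt (deriv A) z ≠ ⊤ := by
  intro z hz htop
  have h1 : ∀ᶠ w in 𝓝 z, deriv A w = 0 := analyticOrderAt_eq_top.1 htop
  have h2 : AnalyticOnNhd ℂ (deriv A) (ball 0 1) := fun w hw => deriv_analyticAt hA hw
  have h3 := h2.eqOn_zero_of_preconnected_of_eventuallyEq_zero
    (convex_ball (0:ℂ) 1).isPreconnected hz h1
  apply hne
  rw [coef_eq]
  have h4 : deriv A =ᶠ[𝓝 0] fun _ => (0:ℂ) := by
    filter_upwards [isOpen_ball.mem_nhds zero_mem] with w hw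
    exact h3 hw
  rw [h4.iteratedDeriv_eq]
  simp

/-- approximation of the critical data of `A` by finite Blaschke products -/
lemma approx {A : ℂ → ℂ} (hA : SelfMap A)
    (hord : ∀ z ∈ ball (0:ℂ) 1, analyticOrderAt (deriv A) z ≠ ⊤) {r : ℝ} (hr : r < 1) :
    ∃ E G : ℂ → ℂ, Barrier E ∧ E 0 = 0 ∧ DifferentiableOn ℂ G (ball 0 1) ∧
      (∀ z ∈ ball (0:ℂ) 1, deriv A z = G z * deriv E z) ∧
      ∀ z ∈ closedBall (0:ℂ) r, analyticOrderAt (deriv A) z ≤ analyticOrderAt (deriv E) z := by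
  obtain ⟨d, p, Q, hp, hQ, hfac, hQne⟩ := factor_disc (hA.diff.deriv isOpen_ball) hord hr
  obtain ⟨E, U, hE, hE0, hU, hUne, hUE⟩ := heins p hp
  refine ⟨E, fun z => Q z / U z, hE, hE0, hQ.div hU hUne, ?_, ?_⟩
  · intro z hz
    have := hUne z hz
    rw [hfac z hz, hUE z hz]
    field_simp
  · intro z hz
    have hzb : z ∈ ball (0:ℂ) 1 := closedBall_subset_ball hr hz
    have hQz : AnalyticAt ℂ Q z := hQ.analyticAt (isOpen_ball.mem_nhds hzb)
    have hUz : AnalyticAt ℂ U z := hU.analyticAt (isOpen_ball.mem_nhds hzb)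
    have h1 : deriv E =ᶠ[𝓝 z] fun w => (U w / Q w) * deriv A w := by
      filter_upwards [isOpen_ball.mem_nhds hzb, hQz.continuousAt.eventually_ne (hQne z hz)] with
        w hw hQw
      rw [hfac w hw, hUE w hw]
      field_simp
    rw [analyticOrderAt_congr h1]
    exact order_mul_ge (hUz.div hQz (hQne z hz)) (deriv_analyticAt hA.diff hzb)

/-- **The extremal property passes to the inner factor.** -/
theorem core_inner {m : ℂ → ℕ} {B C : ℂ → ℂ} (hB : SelfMap B) (hC : SelfMap C)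
    (hcore : Core m (fun z => B (C z))) :
    Core (fun z => analyticOrderNatAt (deriv C) z) C ∧
      ∀ z ∈ ball (0:ℂ) 1, analyticOrderAt (deriv C) z = analyticOrderNatAt (deriv C) z := by
  set A : ℂ → ℂ := fun z => B (C z) with hAdef
  have hA : SelfMap A := hcore.self
  have hordA := order_ne_top hA.diff hcore.ne
  have hder := deriv_comp' hB.diff hC
  have hBC := deriv_comp_diff hB.diff hC
  have hordC : ∀ z ∈ ball (0:ℂ) 1, analyticOrderAt (deriv C) z ≠ ⊤ := by
    intro z hz htop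
    apply hordA z hz
    have h1 : deriv A =ᶠ[𝓝 z] fun w => deriv B (C w) * deriv C w := by
      filter_upwards [isOpen_ball.mem_nhds hz] with w hw
      exact hder w hw
    rw [analyticOrderAt_congr h1]
    have := order_mul_ge (hBC.analyticAt (isOpen_ball.mem_nhds hz)) (deriv_analyticAt hC.diff hz)
    rw [htop] at this
    exact top_le_iff.1 this
  set mC : ℂ → ℕ := fun z => analyticOrderNatAt (deriv C) z with hmC
  have hmCeq : ∀ z ∈ ball (0:ℂ) 1, analyticOrderAt (deriv C) z = (mC z : ℕ∞) := fun z hz =>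
    (Nat.cast_analyticOrderNatAt (hordC z hz)).symm
  refine ⟨⟨hC, fun z hz => (hmCeq z hz).ge, ?_, ?_⟩, hmCeq⟩
  · rw [coef_eq]
    have h1 := hmCeq 0 zero_mem
    exact ((analyticOrderAt_eq_nat_iff_iteratedDeriv_eq_zero
      (deriv_analyticAt hC.diff zero_mem)).1 h1).2
  · intro M hM hMv
    -- `M' = H C'`
    obtain ⟨H, hH, hMH⟩ := division (hM.diff.deriv isOpen_ball) (hC.diff.deriv isOpen_ball) hordC
      (fun z hz => by rw [hmCeq z hz]; exact hMv z hz)
    -- the approximants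
    have hr : ∀ n : ℕ, 1 - 1 / ((n : ℝ) + 1) < 1 := by
      intro n
      have : 0 < 1 / ((n : ℝ) + 1) := by positivity
      linarith
    have hr0 : ∀ n : ℕ, 0 ≤ 1 - 1 / ((n : ℝ) + 1) := by
      intro n
      have h1 : 1 / ((n : ℝ) + 1) ≤ 1 := by
        rw [div_le_one (by positivity)]
        have : (0:ℝ) ≤ n := Nat.cast_nonneg n
        linarith
      linarith
    choose E G hE hE0 hG hAG hEord using fun n : ℕ => approx hA hordA (hr n)
    obtain ⟨Φ, hΦ, hlim⟩ := Pool.Agent.Helper114.Montel.montel isOpen_ball E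
      (fun n => (hE n).self.diff) 1 (fun n z hz => ((hE n).self.maps z hz).le)
      (Filter.hyperfilter ℕ)
    have hN : ((Filter.hyperfilter ℕ : Ultrafilter ℕ) : Filter ℕ).NeBot := inferInstance
    have hlat : ∀ {q : ℕ → Prop}, (∀ᶠ n in atTop, q n) →
        ∀ᶠ n in ((Filter.hyperfilter ℕ : Ultrafilter ℕ) : Filter ℕ), q n := by
      intro q hq
      exact Nat.hyperfilter_le_atTop hq
    have hpt : ∀ z ∈ ball (0:ℂ) 1, Tendsto (fun n => E n z)
        ((Filter.hyperfilter ℕ : Ultrafilter ℕ) : Filter ℕ) (𝓝 (Φ z)) := fun z hz =>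
      hlim.tendsto_at hz
    have hΦ0 : Φ 0 = 0 := by
      have h1 := hpt 0 zero_mem
      simp only [hE0] at h1
      exact tendsto_nhds_unique h1 tendsto_const_nhds
    have hΦs : SelfMap Φ := by
      refine selfMap_of_le hΦ (fun z hz => ?_) zero_mem (by rw [hΦ0]; simp)
      exact le_of_tendsto (hpt z hz).norm
        (Eventually.of_forall fun n => ((hE n).self.maps z hz).le)
    have hΦv : Van m Φ := by
      intro z hz
      rw [natCast_le_analyticOrderAt_iff_iteratedDeriv_eq_zero (deriv_analyticAt hΦ hz)]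
      intro i hi
      have h1 := (iter_tendsto (fun n => (hE n).self.diff) hlim (i + 1)).tendsto_at hz
      simp only [iteratedDeriv_succ'] at h1
      have h2 : ∀ᶠ n in ((Filter.hyperfilter ℕ : Ultrafilter ℕ) : Filter ℕ),
          iteratedDeriv i (deriv (E n)) z = 0 := by
        apply hlat
        have hz1 : ‖z‖ < 1 := by simpa using hz
        have h3 : ∀ᶠ n : ℕ in atTop, ‖z‖ ≤ 1 - 1 / ((n : ℝ) + 1) := by
          have h4 : Tendsto (fun n : ℕ => 1 - 1 / ((n : ℝ) + 1)) atTop (𝓝 (1 - 0)) :=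
            tendsto_one_div_add_atTop_nhds_zero_nat.const_sub 1
          rw [sub_zero] at h4
          exact (h4.eventually (lt_mem_nhds hz1)).mono fun n hn => hn.le
        filter_upwards [h3] with n hn
        have h5 := (hcore.van z hz).trans (hEord n z (by simpa using hn))
        exact (natCast_le_analyticOrderAt_iff_iteratedDeriv_eq_zero
          (deriv_analyticAt (hE n).self.diff hz)).1 h5 i hi
      exact tendsto_nhds_unique h1 (tendsto_const_nhds.congr' (h2.mono fun n hn => hn.symm))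
    have hext := hcore.ext Φ hΦs hΦv
    rw [hΦ0, norm_zero] at hext
    -- the coefficients converge
    have hcoef : Tendsto (fun n => ‖coef m (E n)‖)
        ((Filter.hyperfilter ℕ : Ultrafilter ℕ) : Filter ℕ) (𝓝 ‖coef m Φ‖) := by
      have := (iter_tendsto (fun n => (hE n).self.diff) hlim (m 0 + 1)).tendsto_at zero_mem
      exact this.norm
    have hApos := hA.pos zero_mem
    have hCpos := hC.pos zero_mem
    have hMpos := hM.pos zero_mem
    -- the comparison theorem at the origin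
    have hn : ∀ n, ‖H 0‖ * ‖coef m A‖ * (1 - ‖C 0‖ ^ 2) ≤
        ‖coef m (E n)‖ * ((1 - ‖A 0‖ ^ 2) * (1 - ‖M 0‖ ^ 2)) := by
      intro n
      have h1 := comp_two (hE n) hB hC hM (hG n) hH (hAG n) hMH 0 zero_mem
      have h2 : coef m A = G n 0 * coef m (E n) :=
        coef_of_mul (hE n).self.diff (hG n) (hAG n)
          ((hcore.van 0 zero_mem).trans (hEord n 0 (by simpa using hr0 n)))
      rw [hE0 n, norm_zero, div_le_one (mul_pos hApos hMpos), norm_mul] at h1
      rw [h2, norm_mul]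
      have h3 := mul_le_mul_of_nonneg_left h1 (norm_nonneg (coef m (E n)))
      calc ‖H 0‖ * (‖G n 0‖ * ‖coef m (E n)‖) * (1 - ‖C 0‖ ^ 2)
          = ‖coef m (E n)‖ * (‖H 0‖ * ‖G n 0‖ * (1 - ‖C 0‖ ^ 2) * (1 - 0 ^ 2)) := by ring
        _ ≤ _ := h3
    have hlimle : ‖H 0‖ * ‖coef m A‖ * (1 - ‖C 0‖ ^ 2) ≤
        ‖coef m Φ‖ * ((1 - ‖A 0‖ ^ 2) * (1 - ‖M 0‖ ^ 2)) :=
      ge_of_tendsto (hcoef.mul_const _) (Eventually.of_forall hn)
    have hcA : 0 < ‖coef m A‖ := norm_pos_iff.2 hcore.ne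
    have hH0 : ‖H 0‖ * (1 - ‖C 0‖ ^ 2) ≤ 1 - ‖M 0‖ ^ 2 := by
      have h4 : ‖coef m A‖ * (‖H 0‖ * (1 - ‖C 0‖ ^ 2)) ≤ ‖coef m A‖ * (1 - ‖M 0‖ ^ 2) := by
        have h5 := mul_le_mul_of_nonneg_right hext hMpos.le
        nlinarith
      exact le_of_mul_le_mul_left h4 hcA
    have h6 : coef mC M = H 0 * coef mC C :=
      coef_of_mul hC.diff hH hMH (hmCeq 0 zero_mem).ge
    rw [h6, norm_mul]
    have h7 := mul_le_mul_of_nonneg_right hH0 (norm_nonneg (coef mC C))
    nlinarith

end Pool.Agent.E8helper80.MB
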